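import Mathlib

set_option linter.unusedSectionVars false

namespace Pool.Agent.Results.MP_de7343_al.Dense

open Topology

/-! ## Continuous cohomology by homogeneous cochains -/

section Defs

variable {G A : Type} [Group G] [AddCommGroup A]

/-- The differential of homogeneous cochains:
`(d f)(x₀,…,x_k) = ∑ᵢ (-1)ⁱ f(x₀,…,x̂ᵢ,…,x_k)`. -/
def diff {k : ℕ} (f : (Fin k → G) → A) : (Fin (k + 1) → G) → A :=
  fun x => ∑ i : Fin (k + 1), (-1 : ℤ) ^ (i : ℕ) • f (fun j => x (i.succAbove j))

/-- A continuous homogeneous cochain in `k` variables (that is, of degree `k - 1`) with values in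
the discrete module `A`, on which `G` acts by `ρ`. -/
def IsCochain [TopologicalSpace G] (ρ : G →* AddMonoid.End A) {k : ℕ} (f : (Fin k → G) → A) :
    Prop :=
  IsLocallyConstant f ∧ ∀ (g : G) (x : Fin k → G), f (fun i => g * x i) = ρ g (f x)

/-- `Hⁿ(G, A) = 0` for `n ≥ 1`: every continuous homogeneous `n`-cocycle (a function of `n + 1`
variables) is the coboundary of a continuous homogeneous `(n-1)`-cochain. -/
def HVanishes [TopologicalSpace G] (ρ : G →* AddMonoid.End A) (n : ℕ) : Prop :=
  ∀ f : (Fin (n + 1) → G) → A, IsCochain ρ f → diff f = 0 →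
    ∃ h : (Fin n → G) → A, IsCochain ρ h ∧ diff h = f

/-- `A` with the action `ρ` is a discrete `p`-primary torsion `G`-module. -/
def IsDiscTors [TopologicalSpace G] (p : ℕ) (ρ : G →* AddMonoid.End A) : Prop :=
  (∀ a : A, IsOpen {g : G | ρ g a = a}) ∧ ∀ a : A, ∃ k : ℕ, p ^ k • a = 0

end Defs

/-! ## The differential squares to zero -/

section Diff

variable {G A : Type} [Group G] [AddCommGroup A]

theorem diff_cons {k : ℕ} (f : (Fin (k + 1) → G) → A) (u : G) (x : Fin (k + 1) → G) :
    diff f (Fin.cons u x) = f x - diff (fun y : Fin k → G => f (Fin.cons u y)) x := by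
  unfold diff
  rw [Fin.sum_univ_succ]
  have h0 : (fun j : Fin (k + 1) => (Fin.cons u x : Fin (k + 2) → G) ((0 : Fin (k + 2)).succAbove j)) = x := by
    funext j
    simp
  have h1 : ∀ i : Fin (k + 1),
      (fun j : Fin (k + 1) => (Fin.cons u x : Fin (k + 2) → G) (i.succ.succAbove j)) =
        Fin.cons u (fun j => x (i.succAbove j)) := by
    intro i
    funext j
    refine Fin.cases ?_ (fun j => ?_) j
    · simp
    · simp
  rw [h0]
  simp only [Fin.val_zero, pow_zero, one_smul, h1, Fin.val_succ, pow_succ]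
  simp only [mul_neg, mul_one, neg_smul, Finset.sum_neg_distrib, sub_eq_add_neg]

theorem diff_sub {k : ℕ} (f g : (Fin k → G) → A) : diff (f - g) = diff f - diff g := by
  funext x
  simp [diff, smul_sub]

theorem diff_map {B : Type} [AddCommGroup B] {k : ℕ} (φ : A →+ B) (f : (Fin k → G) → A) :
    diff (fun x => φ (f x)) = fun x => φ (diff f x) := by
  funext x
  simp [diff]

theorem diff_diff {k : ℕ} (f : (Fin k → G) → A) : diff (diff f) = 0 := by
  induction k with
  | zero =>
    funext x
    have hx : ∀ y y' : Fin 0 → G, y = y' := fun y y' => Subsingleton.elim _ _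
    simp only [diff, Fin.sum_univ_succ, Finset.univ_eq_empty, Finset.sum_empty]
    simp [hx _ (fun _ => 1)]
  | succ k ih =>
    funext x
    have hx : x = Fin.cons (x 0) (fun i => x i.succ) := by
      funext i
      refine Fin.cases ?_ (fun j => ?_) i <;> simp
    rw [hx, diff_cons]
    have h2 : (fun y : Fin (k + 1) → G => diff f (Fin.cons (x 0) y)) =
        f - diff (fun y : Fin k → G => f (Fin.cons (x 0) y)) := by
      funext y
      rw [diff_cons]
      rfl
    rw [h2, diff_sub, ih]
    simp

end Diff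

/-! ## Modules of locally constant functions -/

section Modules

variable {G A : Type} [Group G] [TopologicalSpace G] [AddCommGroup A]

theorem rho_mul (ρ : G →* AddMonoid.End A) (g h : G) (a : A) : ρ (g * h) a = ρ g (ρ h a) := by
  rw [map_mul]
  rfl

theorem rho_one (ρ : G →* AddMonoid.End A) (a : A) : ρ 1 a = a := by
  rw [map_one]
  rfl

theorem rho_inv_cancel (ρ : G →* AddMonoid.End A) (g : G) (a : A) : ρ g⁻¹ (ρ g a) = a := by
  rw [← rho_mul, inv_mul_cancel, rho_one]

theorem rho_cancel_inv (ρ : G →* AddMonoid.End A) (g : G) (a : A) : ρ g (ρ g⁻¹ a) = a := by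
  rw [← rho_mul, mul_inv_cancel, rho_one]

theorem forall_open {Y S : Type} [TopologicalSpace Y] [TopologicalSpace S] [CompactSpace S]
    {W : Set (Y × S)} (hW : IsOpen W) : IsOpen {y | ∀ s, (y, s) ∈ W} := by
  have h : IsClosed (Prod.fst '' Wᶜ) := isClosedMap_fst_of_compactSpace _ hW.isClosed_compl
  have : {y | ∀ s, (y, s) ∈ W} = (Prod.fst '' Wᶜ)ᶜ := by
    ext y
    simp
  rw [this]
  exact h.isOpen_compl

/-- Joint local constancy of the action. -/
theorem lc_act [IsTopologicalGroup G] (ρ : G →* AddMonoid.End A)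
    (hρ : ∀ a : A, IsOpen {g : G | ρ g a = a})
    {X : Type} [TopologicalSpace X] {u : X → G} (hu : Continuous u) {v : X → A}
    (hv : IsLocallyConstant v) : IsLocallyConstant (fun x => ρ (u x) (v x)) := by
  rw [IsLocallyConstant.iff_eventually_eq]
  intro x
  have h1 : ∀ᶠ y in 𝓝 x, v y = v x := hv.eventually_eq x
  have h2 : ∀ᶠ y in 𝓝 x, ρ ((u x)⁻¹ * u y) (v x) = v x := by
    have hc : Continuous (fun y => (u x)⁻¹ * u y) := continuous_const.mul hu
    have := (hρ (v x)).preimage hc
    exact this.mem_nhds (by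
      change ρ ((u x)⁻¹ * u x) (v x) = v x
      rw [inv_mul_cancel, rho_one])
  filter_upwards [h1, h2] with y hy1 hy2
  rw [hy1]
  have : u y = u x * ((u x)⁻¹ * u y) := by group
  rw [this, rho_mul, hy2]

/-- A continuous action of `G` on a space `S`. -/
structure SpaceAct (G S : Type) [Group G] [TopologicalSpace G] [TopologicalSpace S] where
  f : G → S → S
  one : ∀ s, f 1 s = s
  mul : ∀ g h s, f (g * h) s = f g (f h s)
  cont : Continuous (fun q : G × S => f q.1 q.2)

variable {S : Type} [TopologicalSpace S]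

/-- The coinduced module `C(S, A)` of locally constant functions, `(g f)(s) = g f(g⁻¹ s)`. -/
def coind (act : SpaceAct G S) (ρ : G →* AddMonoid.End A) :
    G →* AddMonoid.End (LocallyConstant S A) where
  toFun g :=
    { toFun := fun f => ⟨fun s => ρ g (f (act.f g⁻¹ s)), by
        have hc : Continuous (fun s => act.f g⁻¹ s) :=
          act.cont.comp (Continuous.prodMk continuous_const continuous_id)
        exact (f.isLocallyConstant.comp_continuous hc).comp (ρ g)⟩
      map_zero' := by ext s; simp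
      map_add' := by intro f f'; ext s; simp }
  map_one' := by
    ext f s
    change ρ 1 (f (act.f 1⁻¹ s)) = f s
    rw [inv_one, act.one, rho_one]
  map_mul' := by
    intro g h
    ext f s
    change ρ (g * h) (f (act.f (g * h)⁻¹ s)) = ρ g (ρ h (f (act.f h⁻¹ (act.f g⁻¹ s))))
    rw [mul_inv_rev, act.mul, rho_mul]

@[simp] theorem coind_apply (act : SpaceAct G S) (ρ : G →* AddMonoid.End A) (g : G)
    (f : LocallyConstant S A) (s : S) : coind act ρ g f s = ρ g (f (act.f g⁻¹ s)) := rfl

theorem coind_discTors [IsTopologicalGroup G] [CompactSpace S] (p : ℕ) (act : SpaceAct G S)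
    (ρ : G →* AddMonoid.End A) (h : IsDiscTors p ρ) : IsDiscTors p (coind act ρ) := by
  constructor
  · intro f
    have h1 : IsLocallyConstant (fun q : G × S => ρ q.1 (f (act.f q.1⁻¹ q.2)) - f q.2) := by
      have hc : Continuous (fun q : G × S => act.f q.1⁻¹ q.2) :=
        act.cont.comp ((continuous_inv.comp continuous_fst).prodMk continuous_snd)
      have := lc_act ρ h.1 (continuous_fst : Continuous (fun q : G × S => q.1))
        (f.isLocallyConstant.comp_continuous hc)
      exact this.sub (f.isLocallyConstant.comp_continuous continuous_snd)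
    have h2 := forall_open (h1.isOpen_fiber 0)
    convert h2 using 1
    ext g
    change (coind act ρ g f = f) ↔ ∀ s, ρ g (f (act.f g⁻¹ s)) - f s = 0
    constructor
    · intro hg s
      rw [sub_eq_zero]
      conv_rhs => rw [← hg]
      rfl
    · intro hg
      ext s
      have := hg s
      rw [sub_eq_zero] at this
      exact this
  · intro f
    have hfin := f.range_finite
    have : ∃ k : ℕ, ∀ a ∈ Set.range f, p ^ k • a = 0 := by
      generalize Set.range f = T at hfin
      induction T, hfin using Set.Finite.induction_on with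
      | empty => exact ⟨0, by simp⟩
      | insert _ _ ih =>
        rename_i a s _ _
        obtain ⟨k, hk⟩ := ih
        obtain ⟨l, hl⟩ := h.2 a
        refine ⟨k + l, ?_⟩
        intro b hb
        rcases Set.mem_insert_iff.mp hb with rfl | hb
        · rw [pow_add, mul_smul, hl, smul_zero]
        · rw [pow_add, mul_comm, mul_smul, hk b hb, smul_zero]
    obtain ⟨k, hk⟩ := this
    refine ⟨k, ?_⟩
    ext s
    simpa using hk (f s) ⟨s, rfl⟩

/-- The action on a quotient by an invariant subgroup. -/
def quotRep (ρ : G →* AddMonoid.End A) (A₁ : AddSubgroup A) (h : ∀ g, ∀ a ∈ A₁, ρ g a ∈ A₁) :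
    G →* AddMonoid.End (A ⧸ A₁) where
  toFun g := QuotientAddGroup.map A₁ A₁ (ρ g) (fun a ha => h g a ha)
  map_one' := by
    ext b
    obtain ⟨a, rfl⟩ := QuotientAddGroup.mk_surjective b
    change QuotientAddGroup.mk (ρ 1 a) = QuotientAddGroup.mk a
    rw [rho_one]
  map_mul' := by
    intro g g'
    ext b
    obtain ⟨a, rfl⟩ := QuotientAddGroup.mk_surjective b
    change QuotientAddGroup.mk (ρ (g * g') a) = QuotientAddGroup.mk (ρ g (ρ g' a))
    rw [rho_mul]

@[simp] theorem quotRep_apply (ρ : G →* AddMonoid.End A) (A₁ : AddSubgroup A)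
    (h : ∀ g, ∀ a ∈ A₁, ρ g a ∈ A₁) (g : G) (a : A) :
    quotRep ρ A₁ h g (QuotientAddGroup.mk a) = QuotientAddGroup.mk (ρ g a) := rfl

theorem isOpen_stab_of_le [IsTopologicalGroup G] (ρ : G →* AddMonoid.End A) (a : A)
    {B : Type} [AddCommGroup B] (ρ' : G →* AddMonoid.End B) (b : B)
    (ha : IsOpen {g : G | ρ g a = a}) (h : ∀ g, ρ g a = a → ρ' g b = b) :
    IsOpen {g : G | ρ' g b = b} := by
  rw [isOpen_iff_mem_nhds]
  intro g hg
  have hc : Continuous (fun y => g⁻¹ * y) := continuous_const.mul continuous_id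
  have h1 : {y | ρ (g⁻¹ * y) a = a} ∈ 𝓝 g := (ha.preimage hc).mem_nhds (by
    change ρ (g⁻¹ * g) a = a
    rw [inv_mul_cancel, rho_one])
  filter_upwards [h1] with y hy
  have h2 := h _ hy
  have : y = g * (g⁻¹ * y) := by group
  change ρ' y b = b
  rw [this, rho_mul, h2]
  exact hg

theorem quotRep_discTors [IsTopologicalGroup G] (p : ℕ) (ρ : G →* AddMonoid.End A)
    (A₁ : AddSubgroup A) (h : ∀ g, ∀ a ∈ A₁, ρ g a ∈ A₁) (hd : IsDiscTors p ρ) :
    IsDiscTors p (quotRep ρ A₁ h) := by
  constructor
  · intro b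
    obtain ⟨a, rfl⟩ := QuotientAddGroup.mk_surjective b
    apply isOpen_stab_of_le ρ a _ _ (hd.1 a)
    intro g hg
    rw [quotRep_apply, hg]
  · intro b
    obtain ⟨a, rfl⟩ := QuotientAddGroup.mk_surjective b
    obtain ⟨k, hk⟩ := hd.2 a
    refine ⟨k, ?_⟩
    have : (QuotientAddGroup.mk (p ^ k • a) : A ⧸ A₁) = p ^ k • QuotientAddGroup.mk a := rfl
    rw [← this, hk]
    rfl

end Modules

/-! ## Dimension shifting -/

section Shift

variable {G A : Type} [Group G] [TopologicalSpace G] [AddCommGroup A]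

/-- `G` acting on itself by left multiplication. -/
def leftAct (G : Type) [Group G] [TopologicalSpace G] [IsTopologicalGroup G] : SpaceAct G G where
  f g x := g * x
  one := one_mul
  mul := mul_assoc
  cont := continuous_mul

/-- The constant functions. -/
def constHom (S A : Type) [TopologicalSpace S] [AddCommGroup A] : A →+ LocallyConstant S A where
  toFun a := LocallyConstant.const S a
  map_zero' := rfl
  map_add' _ _ := rfl

@[simp] theorem constHom_apply (S A : Type) [TopologicalSpace S] [AddCommGroup A] (a : A) (s : S) :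
    constHom S A a s = a := rfl

/-- The subgroup of constant functions. -/
def constSub (S A : Type) [TopologicalSpace S] [AddCommGroup A] :
    AddSubgroup (LocallyConstant S A) := (constHom S A).range

theorem constSub_inv {S : Type} [TopologicalSpace S] (act : SpaceAct G S)
    (ρ : G →* AddMonoid.End A) :
    ∀ g, ∀ f ∈ constSub S A, coind act ρ g f ∈ constSub S A := by
  rintro g f ⟨a, rfl⟩
  exact ⟨ρ g a, rfl⟩

/-- The module `I(A)/A` with `I(A) = C(G, A)`. -/
def shiftRep [IsTopologicalGroup G] (ρ : G →* AddMonoid.End A) :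
    G →* AddMonoid.End (LocallyConstant G A ⧸ constSub G A) :=
  quotRep (coind (leftAct G) ρ) (constSub G A) (constSub_inv (leftAct G) ρ)

/-- A function of `k + 1` variables seen as a function of `k` variables with values in `C(G, A)`. -/
def curryC [IsTopologicalGroup G] {k : ℕ} (f : (Fin (k + 1) → G) → A) (hf : IsLocallyConstant f) :
    (Fin k → G) → LocallyConstant G A :=
  fun x => ⟨fun u => f (Fin.cons u x), hf.comp_continuous (by
    apply continuous_pi
    intro i
    refine Fin.cases ?_ (fun j => ?_) i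
    · simpa using continuous_id'
    · simpa using continuous_const)⟩

theorem curryC_apply [IsTopologicalGroup G] {k : ℕ} (f : (Fin (k + 1) → G) → A)
    (hf : IsLocallyConstant f) (x : Fin k → G) (u : G) :
    curryC f hf x u = f (Fin.cons u x) := rfl

theorem curryC_cochain [IsTopologicalGroup G] [CompactSpace G] {k : ℕ}
    (ρ : G →* AddMonoid.End A) (f : (Fin (k + 1) → G) → A) (hf : IsCochain ρ f) :
    IsCochain (coind (leftAct G) ρ) (curryC f hf.1) := by
  constructor
  · rw [IsLocallyConstant.iff_eventually_eq]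
    intro x₀
    have hc1 : Continuous (fun q : (Fin k → G) × G => (Fin.cons q.2 q.1 : Fin (k + 1) → G)) := by
      apply continuous_pi
      intro i
      refine Fin.cases ?_ (fun j => ?_) i
      · simpa using continuous_snd
      · have := (continuous_apply j).comp (continuous_fst : Continuous (fun q : (Fin k → G) × G => q.1))
        exact this
    have hc2 : Continuous (fun q : (Fin k → G) × G => (Fin.cons q.2 x₀ : Fin (k + 1) → G)) := by
      apply continuous_pi
      intro i
      refine Fin.cases ?_ (fun j => ?_) i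
      · simpa using continuous_snd
      · simpa using continuous_const
    have h1 : IsLocallyConstant (fun q : (Fin k → G) × G =>
        f (Fin.cons q.2 q.1) - f (Fin.cons q.2 x₀)) :=
      (hf.1.comp_continuous hc1).sub (hf.1.comp_continuous hc2)
    have h2 := forall_open (h1.isOpen_fiber 0)
    have h3 := h2.mem_nhds (x := x₀) (by
      intro s
      change f (Fin.cons s x₀) - f (Fin.cons s x₀) = 0
      exact sub_self _)
    filter_upwards [h3] with x hx
    ext u
    have := hx u
    change f (Fin.cons u x) - f (Fin.cons u x₀) = 0 at this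
    exact sub_eq_zero.mp this
  · intro g x
    ext u
    rw [coind_apply, curryC_apply, curryC_apply, ← hf.2]
    congr 1
    funext i
    refine Fin.cases ?_ (fun j => ?_) i
    · simp [leftAct]
    · simp

/-- Cochains in at least one variable lift along surjections. -/
theorem lift_cochain [IsTopologicalGroup G] {B B' : Type} [AddCommGroup B] [AddCommGroup B']
    {k : ℕ} (ρ : G →* AddMonoid.End B) (ρ' : G →* AddMonoid.End B') (q : B →+ B')
    (hρ : ∀ b : B, IsOpen {g : G | ρ g b = b})
    (hq : Function.Surjective q) (he : ∀ g b, q (ρ g b) = ρ' g (q b))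
    (h' : (Fin (k + 1) → G) → B') (hh : IsCochain ρ' h') :
    ∃ h : (Fin (k + 1) → G) → B, IsCochain ρ h ∧ ∀ x, q (h x) = h' x := by
  obtain ⟨s, hs⟩ := hq.hasRightInverse
  refine ⟨fun x => ρ (x 0) (s (h' (fun i => (x 0)⁻¹ * x i))), ⟨?_, ?_⟩, ?_⟩
  · apply lc_act ρ hρ (continuous_apply 0)
    have hc : Continuous (fun x : Fin (k + 1) → G => fun i => (x 0)⁻¹ * x i) := by
      apply continuous_pi
      intro i
      exact (continuous_inv.comp (continuous_apply 0)).mul (continuous_apply i)
    exact (hh.1.comp_continuous hc).comp s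
  · intro g x
    simp only
    rw [rho_mul]
    congr 4
    funext i
    group
  · intro x
    simp only
    rw [he, hs, ← hh.2]
    congr 1
    funext i
    group

theorem diff_curryC [IsTopologicalGroup G] {k : ℕ} (f : (Fin (k + 1) → G) → A)
    (hf : IsLocallyConstant f) (hd : diff f = 0) (x : Fin (k + 1) → G) :
    diff (curryC f hf) x = constHom G A (f x) := by
  ext u
  have e1 := diff_cons f u x
  rw [hd] at e1
  have e2 : diff (fun y : Fin k → G => f (Fin.cons u y)) x = diff (curryC f hf) x u := by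
    unfold diff
    have : ∀ (T : Finset (Fin (k + 1))) (w : Fin (k + 1) → LocallyConstant G A),
        (∑ i ∈ T, w i) u = ∑ i ∈ T, w i u := by
      intro T w
      induction T using Finset.induction_on with
      | empty => rfl
      | insert a T ha ih =>
        rw [Finset.sum_insert ha, Finset.sum_insert ha, ← ih]
        rfl
    rw [this]
    rfl
  rw [e2] at e1
  rw [constHom_apply]
  exact (sub_eq_zero.mp e1.symm).symm

theorem diff_cochain [IsTopologicalGroup G] {k : ℕ} (ρ : G →* AddMonoid.End A)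
    (f : (Fin k → G) → A) (hf : IsCochain ρ f) : IsCochain ρ (diff f) := by
  constructor
  · unfold diff
    have : ∀ (T : Finset (Fin (k + 1))) (w : Fin (k + 1) → (Fin (k + 1) → G) → A),
        (∀ i, IsLocallyConstant (w i)) → IsLocallyConstant (fun x => ∑ i ∈ T, w i x) := by
      intro T w hw
      induction T using Finset.induction_on with
      | empty => exact IsLocallyConstant.const (0 : A)
      | insert a T ha ih =>
        have : (fun x => ∑ i ∈ insert a T, w i x) = fun x => w a x + ∑ i ∈ T, w i x := by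
          funext x
          rw [Finset.sum_insert ha]
        rw [this]
        exact (hw a).add ih
    apply this
    intro i
    have hc : Continuous (fun x : Fin (k + 1) → G => fun j => x (i.succAbove j)) := by
      apply continuous_pi
      intro j
      exact continuous_apply _
    exact (hf.1.comp_continuous hc).comp (fun b => (-1 : ℤ) ^ (i : ℕ) • b)
  · intro g x
    unfold diff
    rw [map_sum]
    apply Finset.sum_congr rfl
    intro i _
    rw [map_zsmul]
    congr 1
    exact hf.2 g _

theorem cobound [IsTopologicalGroup G] [CompactSpace G] {k : ℕ} (ρ : G →* AddMonoid.End A)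
    (f : (Fin (k + 1) → G) → A) (hf : IsCochain ρ f) (hd : diff f = 0)
    (H : (Fin k → G) → LocallyConstant G A) (hH : IsCochain (coind (leftAct G) ρ) H)
    (hdH : diff H = 0) (hq : ∀ x, curryC f hf.1 x - H x ∈ constSub G A) :
    ∃ a : (Fin k → G) → A, IsCochain ρ a ∧ diff a = f := by
  have hFc := curryC_cochain ρ f hf
  have hdF := diff_curryC f hf.1 hd
  generalize curryC f hf.1 = F at hFc hdF hq
  choose a ha using hq
  refine ⟨a, ⟨?_, ?_⟩, ?_⟩
  · have : a = fun x => (F x - H x) 1 := by
      funext x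
      rw [← ha x]
      rfl
    rw [this]
    exact (hFc.1.sub hH.1).comp (fun b : LocallyConstant G A => b 1)
  · intro g x
    have e1 := ha (fun i => g * x i)
    rw [hFc.2, hH.2, ← map_sub, ← ha x] at e1
    exact congrArg (fun b : LocallyConstant G A => b 1) e1
  · funext x
    have e1 : diff (fun x => constHom G A (a x)) x = constHom G A (diff a x) :=
      congrFun (diff_map (constHom G A) a) x
    have e2 : (fun x => constHom G A (a x)) = F - H := by
      funext x
      exact ha x
    rw [e2, diff_sub, hdH, sub_zero, hdF] at e1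
    exact (congrArg (fun b : LocallyConstant G A => b 1) e1).symm

theorem shift [IsTopologicalGroup G] [CompactSpace G] (p : ℕ) (ρ : G →* AddMonoid.End A)
    (hρ : IsDiscTors p ρ) (n : ℕ) (h : HVanishes (shiftRep ρ) (n + 1)) :
    HVanishes ρ (n + 2) := by
  intro f hf hd
  have hI := coind_discTors (A := A) p (leftAct G) ρ hρ
  have hFc := curryC_cochain ρ f hf
  have hdF := diff_curryC f hf.1 hd
  let q : LocallyConstant G A →+ LocallyConstant G A ⧸ constSub G A :=
    QuotientAddGroup.mk' (constSub G A)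
  have hq : Function.Surjective q := QuotientAddGroup.mk'_surjective _
  have he : ∀ g b, q (coind (leftAct G) ρ g b) = shiftRep ρ g (q b) := fun g b => rfl
  obtain ⟨F, hF⟩ : ∃ F, F = curryC f hf.1 := ⟨_, rfl⟩
  rw [← hF] at hFc hdF
  -- the cocycle in the quotient
  have hc' : IsCochain (shiftRep ρ) (fun x => q (F x)) := by
    constructor
    · exact hFc.1.comp q
    · intro g x
      simp only
      rw [hFc.2, he]
  have hd' : diff (fun x => q (F x)) = 0 := by
    rw [diff_map]
    funext x
    rw [hdF]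
    exact (QuotientAddGroup.eq_zero_iff _).mpr ⟨f x, rfl⟩
  obtain ⟨h', hh', hdh'⟩ := h _ hc' hd'
  obtain ⟨k, hk, hkq⟩ := lift_cochain (coind (leftAct G) ρ) (shiftRep ρ) q hI.1 hq he h' hh'
  apply cobound ρ f hf hd (diff k) (diff_cochain _ k hk) (diff_diff k)
  intro x
  rw [← hF, ← QuotientAddGroup.eq_zero_iff]
  change q (F x - diff k x) = 0
  rw [map_sub]
  have : q (diff k x) = q (F x) := by
    have e := congrFun (diff_map q k) x
    rw [← e]
    have : (fun x => q (k x)) = h' := funext hkq
    rw [this, hdh']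
  rw [this, sub_self]

theorem shift_iter [IsTopologicalGroup G] [CompactSpace G] (p : ℕ)
    (h3 : ∀ (A : Type) [AddCommGroup A] (ρ : G →* AddMonoid.End A), IsDiscTors p ρ →
      HVanishes ρ 3) :
    ∀ n, 3 ≤ n → ∀ (A : Type) [AddCommGroup A] (ρ : G →* AddMonoid.End A), IsDiscTors p ρ →
      HVanishes ρ n := by
  intro n hn
  induction n, hn using Nat.le_induction with
  | base => exact h3
  | succ n hn ih =>
    intro A _ ρ hρ
    obtain ⟨m, rfl⟩ : ∃ m, n = m + 1 := ⟨n - 1, by omega⟩
    apply shift p ρ hρ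
    exact ih _ _ (quotRep_discTors p _ _ _ (coind_discTors p _ ρ hρ))

end Shift

/-! ## Derivations -/

section Derivations

variable {F D : Type} [Group F] [TopologicalSpace F] [AddCommGroup D]

/-- Locally constant derivations (inhomogeneous 1-cocycles). -/
def IsDer (σ : F →* AddMonoid.End D) (δ : F → D) : Prop :=
  IsLocallyConstant δ ∧ ∀ g h, δ (g * h) = δ g + σ g (δ h)

/-- Every element of the module is the value at `r` of a derivation. -/
def EvalSurj (σ : F →* AddMonoid.End D) (r : F) : Prop :=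
  ∀ m : D, ∃ δ : F → D, IsDer σ δ ∧ δ r = m

theorem IsDer.one {σ : F →* AddMonoid.End D} {δ : F → D} (h : IsDer σ δ) : δ 1 = 0 := by
  have := h.2 1 1
  rw [mul_one, rho_one] at this
  exact left_eq_add.mp this

theorem IsDer.inv {σ : F →* AddMonoid.End D} {δ : F → D} (h : IsDer σ δ) (g : F) :
    δ g⁻¹ = - σ g⁻¹ (δ g) := by
  have := h.2 g⁻¹ g
  rw [inv_mul_cancel, h.one] at this
  exact (neg_eq_of_add_eq_zero_left this.symm).symm

theorem IsDer.sub {σ : F →* AddMonoid.End D} {δ δ' : F → D} (h : IsDer σ δ) (h' : IsDer σ δ') :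
    IsDer σ (δ - δ') := by
  refine ⟨h.1.sub h'.1, ?_⟩
  intro x y
  simp only [Pi.sub_apply, h.2, h'.2, map_sub]
  abel

theorem IsDer.add {σ : F →* AddMonoid.End D} {δ δ' : F → D} (h : IsDer σ δ) (h' : IsDer σ δ') :
    IsDer σ (δ + δ') := by
  refine ⟨h.1.add h'.1, ?_⟩
  intro x y
  simp only [Pi.add_apply, h.2, h'.2, map_add]
  abel

theorem IsDer.map {D' : Type} [AddCommGroup D'] {σ : F →* AddMonoid.End D}
    {σ' : F →* AddMonoid.End D'} {δ : F → D} (h : IsDer σ δ) (q : D →+ D')
    (he : ∀ g d, q (σ g d) = σ' g (q d)) : IsDer σ' (fun x => q (δ x)) := by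
  refine ⟨h.1.comp q, ?_⟩
  intro x y
  change q (δ (x * y)) = q (δ x) + σ' x (q (δ y))
  rw [h.2, map_add, he]

theorem EvalSurj.map {D' : Type} [AddCommGroup D'] {σ : F →* AddMonoid.End D}
    {σ' : F →* AddMonoid.End D'} {r : F} (h : EvalSurj σ r) (q : D →+ D')
    (hq : Function.Surjective q) (he : ∀ g d, q (σ g d) = σ' g (q d)) : EvalSurj σ' r := by
  intro m
  obtain ⟨d, rfl⟩ := hq m
  obtain ⟨δ, hδ, hr⟩ := h d
  exact ⟨_, hδ.map q he, by rw [hr]⟩

/-- The closed normal subgroup generated by `r`. -/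
def clNormal [IsTopologicalGroup F] (r : F) : Subgroup F :=
  (Subgroup.normalClosure ({r} : Set F)).topologicalClosure

instance [IsTopologicalGroup F] (r : F) : (clNormal r).Normal :=
  Subgroup.is_normal_topologicalClosure _

theorem clNormal_le [IsTopologicalGroup F] (r : F) (N : Subgroup F) [N.Normal]
    (hN : IsClosed (N : Set F)) (hr : r ∈ N) : clNormal r ≤ N := by
  apply Subgroup.topologicalClosure_minimal _ _ hN
  apply Subgroup.normalClosure_le_normal
  simpa using hr

theorem mem_clNormal [IsTopologicalGroup F] (r : F) : r ∈ clNormal r :=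
  Subgroup.le_topologicalClosure _ (Subgroup.subset_normalClosure rfl)

/-- A derivation that vanishes at `r` vanishes on the closed normal subgroup generated by `r`,
provided that this subgroup acts trivially. -/
theorem IsDer.vanish [IsTopologicalGroup F] {σ : F →* AddMonoid.End D} {δ : F → D}
    (h : IsDer σ δ) (r : F) (hr : δ r = 0) (ht : ∀ g ∈ clNormal r, ∀ d, σ g d = d) :
    ∀ g ∈ clNormal r, δ g = 0 := by
  let K : Subgroup F :=
    { carrier := {g | g ∈ clNormal r ∧ δ g = 0}
      mul_mem' := by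
        rintro a b ⟨ha, ha'⟩ ⟨hb, hb'⟩
        refine ⟨Subgroup.mul_mem _ ha hb, ?_⟩
        rw [h.2, ha', hb', map_zero, add_zero]
      one_mem' := ⟨Subgroup.one_mem _, h.one⟩
      inv_mem' := by
        rintro a ⟨ha, ha'⟩
        refine ⟨Subgroup.inv_mem _ ha, ?_⟩
        rw [h.inv, ha', map_zero, neg_zero] }
  have hK : K.Normal := by
    constructor
    rintro n ⟨hn, hn'⟩ g
    have hc : g * n * g⁻¹ ∈ clNormal r :=
      (inferInstance : (clNormal r).Normal).conj_mem n hn g
    refine ⟨hc, ?_⟩
    rw [h.2, h.2, hn', map_zero, add_zero, h.inv, map_neg, ← rho_mul, ht _ hc, add_neg_cancel]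
  have hcl : IsClosed (K : Set F) := by
    have : (K : Set F) = (clNormal r : Set F) ∩ {g | δ g = 0} := rfl
    rw [this]
    exact (Subgroup.isClosed_topologicalClosure _).inter (h.1.isClosed_fiber 0)
  have := clNormal_le r K hcl ⟨mem_clNormal r, hr⟩
  intro g hg
  exact (this hg).2

end Derivations

/-! ## Vanishing of the second cohomology of `F/(r)` -/

section H2

variable {F : Type} [Group F] [TopologicalSpace F] [IsTopologicalGroup F] [CompactSpace F]

theorem H2_of_eval (r : F) {D : Type} [AddCommGroup D]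
    (ρ : (F ⧸ clNormal r) →* AddMonoid.End D)
    (hρ : ∀ a : D, IsOpen {g | ρ g a = a})
    (hE : EvalSurj (ρ.comp (QuotientGroup.mk' (clNormal r))) r)
    (hlift : ∀ δ'' : F → LocallyConstant (F ⧸ clNormal r) D ⧸ constSub (F ⧸ clNormal r) D,
      IsDer ((shiftRep ρ).comp (QuotientGroup.mk' (clNormal r))) δ'' →
      ∃ δ : F → LocallyConstant (F ⧸ clNormal r) D,
        IsDer ((coind (leftAct _) ρ).comp (QuotientGroup.mk' (clNormal r))) δ ∧
        ∀ x, (QuotientAddGroup.mk (δ x) : _ ⧸ constSub (F ⧸ clNormal r) D) = δ'' x) :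
    HVanishes ρ 2 := by
  intro f hf hd
  have hFc := curryC_cochain ρ f hf
  have hdF := diff_curryC f hf.1 hd
  set π := QuotientGroup.mk' (clNormal r) with hπ
  have hπc : Continuous π := QuotientGroup.continuous_mk
  have hπs : Function.Surjective π := QuotientGroup.mk'_surjective _
  let q : LocallyConstant (F ⧸ clNormal r) D →+
      LocallyConstant (F ⧸ clNormal r) D ⧸ constSub (F ⧸ clNormal r) D :=
    QuotientAddGroup.mk' (constSub (F ⧸ clNormal r) D)
  obtain ⟨Φ, hΦ⟩ : ∃ Φ, Φ = curryC f hf.1 := ⟨_, rfl⟩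
  rw [← hΦ] at hFc hdF
  have he : ∀ g b, q (coind (leftAct _) ρ g b) = shiftRep ρ g (q b) := fun g b => rfl
  -- the derivation with values in the quotient
  let δ'' : F → LocallyConstant (F ⧸ clNormal r) D ⧸ constSub (F ⧸ clNormal r) D :=
    fun g => q (Φ ![1, π g])
  have hδ'' : IsDer ((shiftRep ρ).comp π) δ'' := by
    constructor
    · have hc : Continuous (fun g : F => (![1, π g] : Fin 2 → (F ⧸ clNormal r))) := by
        apply continuous_pi
        intro i
        refine Fin.cases ?_ (fun j => ?_) i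
        · simpa using continuous_const
        · refine Fin.cases ?_ (fun j => j.elim0) j
          simpa using hπc
      exact (hFc.1.comp_continuous hc).comp q
    · intro g h
      have e1 := hdF ![1, π g, π g * π h]
      have e2 : q (diff Φ ![1, π g, π g * π h]) = 0 := by
        rw [e1]
        exact (QuotientAddGroup.eq_zero_iff _).mpr ⟨_, rfl⟩
      have e3 : diff Φ ![1, π g, π g * π h] =
          Φ ![π g, π g * π h] - Φ ![1, π g * π h] + Φ ![1, π g] := by
        unfold diff
        rw [Fin.sum_univ_three]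
        have a0 : (fun j : Fin 2 => (![1, π g, π g * π h] : Fin 3 → (F ⧸ clNormal r))
            ((0 : Fin 3).succAbove j)) = ![π g, π g * π h] := by
          funext j; fin_cases j <;> rfl
        have a1 : (fun j : Fin 2 => (![1, π g, π g * π h] : Fin 3 → (F ⧸ clNormal r))
            ((1 : Fin 3).succAbove j)) = ![1, π g * π h] := by
          funext j; fin_cases j <;> rfl
        have a2 : (fun j : Fin 2 => (![1, π g, π g * π h] : Fin 3 → (F ⧸ clNormal r))
            ((2 : Fin 3).succAbove j)) = ![1, π g] := by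
          funext j; fin_cases j <;> rfl
        rw [a0, a1, a2]
        simp [sub_eq_add_neg]
      have e4 : Φ ![π g, π g * π h] = coind (leftAct _) ρ (π g) (Φ ![1, π h]) := by
        rw [← hFc.2]
        congr 1
        funext j; fin_cases j <;> simp
      rw [e3, e4, map_add, map_sub, he] at e2
      change q (Φ ![1, π (g * h)]) = q (Φ ![1, π g]) + shiftRep ρ (π g) (q (Φ ![1, π h]))
      rw [map_mul]
      have e5 : q (Φ ![1, π g * π h]) = shiftRep ρ (π g) (q (Φ ![1, π h])) + q (Φ ![1, π g]) := by
        have := sub_eq_zero.mp (by rw [← e2]; abel :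
          shiftRep ρ (π g) (q (Φ ![1, π h])) + q (Φ ![1, π g]) - q (Φ ![1, π g * π h]) = 0)
        exact this.symm
      rw [e5, add_comm]
  obtain ⟨δ, hδ, hδq⟩ := hlift δ'' hδ''
  -- its value at r is constant
  have hπr : ∀ g ∈ clNormal r, π g = 1 := by
    intro g hg
    exact (QuotientGroup.eq_one_iff g).mpr hg
  have hδr : δ r ∈ constSub (F ⧸ clNormal r) D := by
    rw [← QuotientAddGroup.eq_zero_iff, hδq]
    have e1 : δ'' r = δ'' 1 := by
      change q (Φ ![1, π r]) = q (Φ ![1, π 1])
      rw [hπr r (mem_clNormal r), map_one]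
    rw [e1]
    exact hδ''.one
  obtain ⟨m, hm⟩ := hδr
  obtain ⟨δ₁, hδ₁, hδ₁r⟩ := hE m
  have hc1 : IsDer ((coind (leftAct _) ρ).comp π) (fun x => constHom (F ⧸ clNormal r) D (δ₁ x)) :=
    hδ₁.map _ (fun g d => rfl)
  have hδ₂ := hδ.sub hc1
  set δ₂ := δ - (fun x => constHom (F ⧸ clNormal r) D (δ₁ x)) with hδ₂def
  have htriv : ∀ g ∈ clNormal r, ∀ d, ((coind (leftAct _) ρ).comp π) g d = d := by
    intro g hg d
    rw [MonoidHom.comp_apply, hπr g hg, rho_one]
  have hvan := hδ₂.vanish r (by
    rw [hδ₂def]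
    simp only [Pi.sub_apply, hδ₁r]
    rw [← hm, sub_self]) htriv
  -- descend to the quotient
  have hdesc : ∀ g h, π g = π h → δ₂ g = δ₂ h := by
    intro g h hgh
    have : g⁻¹ * h ∈ clNormal r := QuotientGroup.eq.mp hgh
    have e := hδ₂.2 g (g⁻¹ * h)
    rw [hvan _ this, map_zero, add_zero] at e
    rw [← e]
    congr 1
    group
  let s : (F ⧸ clNormal r) → F := fun x => (hπs x).choose
  have hs : ∀ x, π (s x) = x := fun x => (hπs x).choose_spec
  let δ₃ : (F ⧸ clNormal r) → LocallyConstant (F ⧸ clNormal r) D := fun x => δ₂ (s x)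
  have hδ₃ : ∀ g, δ₃ (π g) = δ₂ g := fun g => hdesc _ _ (hs _)
  have hδ₃d : IsDer (coind (leftAct _) ρ) δ₃ := by
    constructor
    · intro U
      have : IsOpen (π ⁻¹' (δ₃ ⁻¹' U)) := by
        have e : π ⁻¹' (δ₃ ⁻¹' U) = δ₂ ⁻¹' U := by
          ext g
          simp only [Set.mem_preimage, hδ₃]
        rw [e]
        exact hδ₂.1 U
      have hquot : Topology.IsQuotientMap π := QuotientGroup.isQuotientMap_mk _
      exact hquot.isOpen_preimage.mp this
    · intro x y
      obtain ⟨g, rfl⟩ := hπs x
      obtain ⟨h, rfl⟩ := hπs y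
      rw [← map_mul, hδ₃, hδ₃, hδ₃, hδ₂.2]
      rfl
  have hδ₃q : ∀ g, q (δ₃ (π g)) = δ'' g := by
    intro g
    rw [hδ₃, hδ₂def]
    simp only [Pi.sub_apply, map_sub]
    have : q (constHom (F ⧸ clNormal r) D (δ₁ g)) = 0 :=
      (QuotientAddGroup.eq_zero_iff _).mpr ⟨_, rfl⟩
    rw [this, sub_zero]
    exact hδq g
  -- the corresponding homogeneous cochain
  let H : (Fin 2 → (F ⧸ clNormal r)) → LocallyConstant (F ⧸ clNormal r) D :=
    fun x => coind (leftAct _) ρ (x 0) (δ₃ ((x 0)⁻¹ * x 1))
  have hH : IsCochain (coind (leftAct _) ρ) H := by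
    constructor
    · have hco : ∀ b : LocallyConstant (F ⧸ clNormal r) D,
          IsOpen {g | coind (leftAct _) ρ g b = b} := by
        intro f
        have h1 : IsLocallyConstant (fun q : (F ⧸ clNormal r) × (F ⧸ clNormal r) =>
            ρ q.1 (f ((leftAct _).f q.1⁻¹ q.2)) - f q.2) := by
          have hc : Continuous (fun q : (F ⧸ clNormal r) × (F ⧸ clNormal r) =>
              (leftAct _).f q.1⁻¹ q.2) :=
            (leftAct _).cont.comp ((continuous_inv.comp continuous_fst).prodMk continuous_snd)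
          have := lc_act ρ hρ
            (continuous_fst : Continuous (fun q : (F ⧸ clNormal r) × (F ⧸ clNormal r) => q.1))
            (f.isLocallyConstant.comp_continuous hc)
          exact this.sub (f.isLocallyConstant.comp_continuous continuous_snd)
        have h2 := forall_open (h1.isOpen_fiber 0)
        convert h2 using 1
        ext g
        change (coind (leftAct _) ρ g f = f) ↔ ∀ s, ρ g (f ((leftAct _).f g⁻¹ s)) - f s = 0
        constructor
        · intro hg s
          rw [sub_eq_zero]
          conv_rhs => rw [← hg]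
          rfl
        · intro hg
          ext s
          have := hg s
          rw [sub_eq_zero] at this
          exact this
      apply lc_act _ hco (continuous_apply 0)
      have hc : Continuous (fun x : Fin 2 → (F ⧸ clNormal r) => (x 0)⁻¹ * x 1) :=
        (continuous_inv.comp (continuous_apply 0)).mul (continuous_apply 1)
      exact hδ₃d.1.comp_continuous hc
    · intro g x
      change coind (leftAct _) ρ (g * x 0) (δ₃ ((g * x 0)⁻¹ * (g * x 1))) =
        coind (leftAct _) ρ g (coind (leftAct _) ρ (x 0) (δ₃ ((x 0)⁻¹ * x 1)))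
      rw [rho_mul]
      congr 3
      group
  have hdH : diff H = 0 := by
    funext x
    unfold diff
    rw [Fin.sum_univ_three]
    have a0 : (fun j : Fin 2 => x ((0 : Fin 3).succAbove j)) = ![x 1, x 2] := by
      funext j; fin_cases j <;> rfl
    have a1 : (fun j : Fin 2 => x ((1 : Fin 3).succAbove j)) = ![x 0, x 2] := by
      funext j; fin_cases j <;> rfl
    have a2 : (fun j : Fin 2 => x ((2 : Fin 3).succAbove j)) = ![x 0, x 1] := by
      funext j; fin_cases j <;> rfl
    rw [a0, a1, a2]
    have b : ∀ u v : (F ⧸ clNormal r), H ![u, v] = coind (leftAct _) ρ u (δ₃ (u⁻¹ * v)) :=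
      fun u v => rfl
    rw [b, b, b]
    have e : (x 0)⁻¹ * x 2 = ((x 0)⁻¹ * x 1) * ((x 1)⁻¹ * x 2) := by group
    rw [e, hδ₃d.2 ((x 0)⁻¹ * x 1) ((x 1)⁻¹ * x 2), map_add, ← rho_mul]
    have e' : x 0 * ((x 0)⁻¹ * x 1) = x 1 := by group
    rw [e']
    simp only [Fin.val_zero, pow_zero, one_smul, Fin.val_one, pow_one, neg_smul, Fin.val_two,
      Pi.zero_apply]
    norm_num
  apply cobound ρ f hf hd H hH hdH
  intro x
  rw [← hΦ, ← QuotientAddGroup.eq_zero_iff]
  change q (Φ x - H x) = 0
  rw [map_sub]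
  have e1 : q (H x) = q (Φ x) := by
    change q (coind (leftAct _) ρ (x 0) (δ₃ ((x 0)⁻¹ * x 1))) = _
    rw [he]
    obtain ⟨g, hg⟩ := hπs ((x 0)⁻¹ * x 1)
    rw [← hg, hδ₃q]
    change shiftRep ρ (x 0) (q (Φ ![1, π g])) = _
    rw [← he, ← hFc.2]
    congr 2
    funext j
    rw [hg]
    fin_cases j <;> simp
  rw [e1, sub_self]

end H2

/-! ## Free pro-`p` groups -/

/-- `F` is a free pro-`p` group with basis `ι : X → F` (a family converging to `1`): `F` is a
pro-`p` group, `ι` converges to `1`, and every map `f` from `X` to a finite `p`-group `P` with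
`f x = 1` for almost all `x` extends uniquely to a continuous homomorphism `F → P`. -/
def IsFreeProP (p : ℕ) {X F : Type} [Group F] [TopologicalSpace F] (ι : X → F) : Prop :=
  (∀ U : Subgroup F, IsOpen (U : Set F) → U.Normal → ∃ n : ℕ, U.index = p ^ n) ∧
  (∀ U : Set F, IsOpen U → (1 : F) ∈ U → {x : X | ι x ∉ U}.Finite) ∧
  (∀ (P : Type) [Group P] [Finite P], (∃ n : ℕ, Nat.card P = p ^ n) →
    ∀ f : X → P, {x : X | f x ≠ 1}.Finite →
      ∃! φ : F →* P, IsOpen (φ.ker : Set F) ∧ ∀ x : X, φ (ι x) = f x)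

section Free

variable {X F : Type} [Group F] [TopologicalSpace F] [IsTopologicalGroup F] [CompactSpace F]
  [T2Space F] [TotallyDisconnectedSpace F] {p : ℕ} {ι : X → F}

theorem isOpen_ker_mk (U : Subgroup F) [U.Normal] (hU : IsOpen (U : Set F)) :
    IsOpen ((QuotientGroup.mk' U).ker : Set F) := by
  rw [QuotientGroup.ker_mk']
  exact hU

theorem finite_quot (U : Subgroup F) (hU : IsOpen (U : Set F)) : Finite (F ⧸ U) := by
  have : U.FiniteIndex := by
    have : DiscreteTopology (F ⧸ U) := QuotientGroup.discreteTopology hU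
    have : Finite (F ⧸ U) := finite_of_compact_of_discrete
    exact Subgroup.finiteIndex_of_finite_quotient
  infer_instance

/-- The basis generates a dense subgroup. -/
theorem IsFreeProP.top_of_closed (h : IsFreeProP p ι) (hp : p.Prime) (K : Subgroup F)
    (hK : IsClosed (K : Set F)) (hι : ∀ x, ι x ∈ K) : K = ⊤ := by
  rw [eq_top_iff]
  intro g _
  by_contra hg
  -- an open normal subgroup separating g from K
  let V : Set F := (fun x => g * x) ⁻¹' (K : Set F)ᶜ
  have hV : IsOpen V := hK.isOpen_compl.preimage (continuous_const.mul continuous_id)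
  have h1V : (1 : F) ∈ V := by
    change g * 1 ∉ (K : Set F)
    rw [mul_one]
    exact hg
  obtain ⟨U, hU⟩ := ProfiniteGrp.exist_openNormalSubgroup_sub_open_nhds_of_one hV h1V
  let U' : Subgroup F := U.toSubgroup
  have hUn : U'.Normal := U.isNormal'
  have hUo : IsOpen (U' : Set F) := U.isOpen'
  have hfin : Finite (F ⧸ U') := finite_quot U' hUo
  obtain ⟨n, hn⟩ := h.1 U' hUo hUn
  have hcard : Nat.card (F ⧸ U') = p ^ n := hn
  let Q : Subgroup (F ⧸ U') := K.map (QuotientGroup.mk' U')
  have : Fact p.Prime := ⟨hp⟩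
  have hQ : ∃ m : ℕ, Nat.card Q = p ^ m := by
    have : IsPGroup p (F ⧸ U') := IsPGroup.of_card hcard
    exact IsPGroup.iff_card.mp (this.to_subgroup Q)
  let f : X → Q := fun x => ⟨QuotientGroup.mk' U' (ι x), ⟨ι x, hι x, rfl⟩⟩
  have hf : {x : X | f x ≠ 1}.Finite := by
    refine (h.2.1 (U' : Set F) hUo U'.one_mem).subset ?_
    intro x hx hx'
    apply hx
    apply Subtype.ext
    exact (QuotientGroup.eq_one_iff _).mpr hx'
  obtain ⟨φ, ⟨hφo, hφ⟩, -⟩ := h.2.2 Q hQ f hf
  obtain ⟨ψ, -, hψ⟩ := h.2.2 (F ⧸ U') ⟨n, hcard⟩ (fun x => QuotientGroup.mk' U' (ι x)) (by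
    refine (h.2.1 (U' : Set F) hUo U'.one_mem).subset ?_
    intro x hx hx'
    apply hx
    exact (QuotientGroup.eq_one_iff _).mpr hx')
  have e1 := hψ (QuotientGroup.mk' U') ⟨isOpen_ker_mk U' hUo, fun x => rfl⟩
  have e2 := hψ (Q.subtype.comp φ) ⟨by
    have : (Q.subtype.comp φ).ker = φ.ker := by
      ext x
      simp [MonoidHom.mem_ker]
    rw [this]
    exact hφo, fun x => by
      rw [MonoidHom.comp_apply, hφ]
      rfl⟩
  have e3 : QuotientGroup.mk' U' = Q.subtype.comp φ := e1.trans e2.symm
  have e4 : QuotientGroup.mk' U' g ∈ Q := by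
    rw [e3]
    exact (φ g).2
  obtain ⟨k, hk, hkg⟩ := e4
  have e5 : g⁻¹ * k ∈ U' := QuotientGroup.eq.mp hkg.symm
  have e6 := hU e5
  apply e6
  change g * (g⁻¹ * k) ∈ (K : Set F)
  rw [mul_inv_cancel_left]
  exact hk

/-- Derivations are determined by their values on the basis. -/
theorem IsFreeProP.der_unique (h : IsFreeProP p ι) (hp : p.Prime) {D : Type} [AddCommGroup D]
    {σ : F →* AddMonoid.End D} {δ δ' : F → D} (hδ : IsDer σ δ) (hδ' : IsDer σ δ')
    (he : ∀ x, δ (ι x) = δ' (ι x)) : δ = δ' := by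
  let K : Subgroup F :=
    { carrier := {g | δ g = δ' g}
      mul_mem' := by
        intro a b ha hb
        change δ (a * b) = δ' (a * b)
        rw [hδ.2, hδ'.2, ha, hb]
      one_mem' := by
        change δ 1 = δ' 1
        rw [hδ.one, hδ'.one]
      inv_mem' := by
        intro a ha
        change δ a⁻¹ = δ' a⁻¹
        rw [hδ.inv, hδ'.inv, ha] }
  have hK : IsClosed (K : Set F) := by
    have : (K : Set F) = {g | (δ - δ') g = 0} := by
      ext g
      exact sub_eq_zero.symm
    rw [this]
    exact (hδ.sub hδ').1.isClosed_fiber 0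
  have := h.top_of_closed hp K hK he
  funext g
  have hg : g ∈ K := by rw [this]; trivial
  exact hg

theorem hom_lc {P : Type} [Group P] (φ : F →* P) (hφ : IsOpen (φ.ker : Set F)) :
    IsLocallyConstant φ := by
  rw [IsLocallyConstant.iff_eventually_eq]
  intro g
  have hc : Continuous (fun y => g⁻¹ * y) := continuous_const.mul continuous_id
  have : {y | g⁻¹ * y ∈ φ.ker} ∈ 𝓝 g := (hφ.preimage hc).mem_nhds (by simp)
  filter_upwards [this] with y hy
  have : φ (g⁻¹ * y) = 1 := hy
  rw [map_mul, map_inv, inv_mul_eq_one] at this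
  exact this.symm

omit [T2Space F] [TotallyDisconnectedSpace F] in
/-- A finite set of elements of a discrete torsion module lies in a finite submodule. -/
theorem finite_submodule {D : Type} [AddCommGroup D] (σ : F →* AddMonoid.End D)
    (hσ : IsDiscTors p σ) (hp : p.Prime) (T : Set D) (hT : T.Finite) :
    ∃ D₀ : AddSubgroup D, Finite D₀ ∧ T ⊆ D₀ ∧ ∀ g, ∀ d ∈ D₀, σ g d ∈ D₀ := by
  let T' : Set D := ⋃ a ∈ T, Set.range (fun g => σ g a)
  have hT' : T'.Finite := by
    apply hT.biUnion
    intro a _
    have : IsLocallyConstant (fun g : F => σ g a) :=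
      lc_act σ hσ.1 continuous_id (IsLocallyConstant.const a)
    exact this.range_finite
  refine ⟨AddSubgroup.closure T', ?_, ?_, ?_⟩
  · have hfg : AddGroup.FG (AddSubgroup.closure T') := by
      rw [AddGroup.fg_iff_addSubgroup_fg]
      exact ⟨hT'.toFinset, by simp⟩
    apply AddCommGroup.finite_of_fg_isAddTorsion
    intro x
    obtain ⟨k, hk⟩ := hσ.2 (x : D)
    rw [isOfFinAddOrder_iff_nsmul_eq_zero]
    refine ⟨p ^ k, pow_pos hp.pos k, ?_⟩
    apply Subtype.ext
    exact hk
  · intro a ha
    apply AddSubgroup.subset_closure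
    simp only [T', Set.mem_iUnion]
    exact ⟨a, ha, 1, rho_one σ a⟩
  · intro g d hd
    induction hd using AddSubgroup.closure_induction with
    | mem x hx =>
      apply AddSubgroup.subset_closure
      simp only [T', Set.mem_iUnion] at hx ⊢
      obtain ⟨a, ha, u, rfl⟩ := hx
      exact ⟨a, ha, g * u, rho_mul σ g u a⟩
    | zero => rw [map_zero]; exact AddSubgroup.zero_mem _
    | add x y _ _ hx hy => rw [map_add]; exact AddSubgroup.add_mem _ hx hy
    | neg x _ hx => rw [map_neg]; exact AddSubgroup.neg_mem _ hx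

/-- The action on a finite submodule as a homomorphism to automorphisms. -/
def autHom {D : Type} [AddCommGroup D] (σ : F →* AddMonoid.End D) (D₀ : AddSubgroup D)
    (h : ∀ g, ∀ d ∈ D₀, σ g d ∈ D₀) : F →* MulAut (Multiplicative D₀) where
  toFun g :=
    { toFun := fun d => Multiplicative.ofAdd
        ⟨σ g (Multiplicative.toAdd d : D₀), h g _ (Multiplicative.toAdd d : D₀).2⟩
      invFun := fun d => Multiplicative.ofAdd
        ⟨σ g⁻¹ (Multiplicative.toAdd d : D₀), h g⁻¹ _ (Multiplicative.toAdd d : D₀).2⟩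
      left_inv := by
        intro d
        apply Multiplicative.toAdd.injective
        apply Subtype.ext
        exact rho_inv_cancel σ g _
      right_inv := by
        intro d
        apply Multiplicative.toAdd.injective
        apply Subtype.ext
        exact rho_cancel_inv σ g _
      map_mul' := by
        intro d d'
        apply Multiplicative.toAdd.injective
        apply Subtype.ext
        exact map_add (σ g) _ _ }
  map_one' := by
    ext d
    exact rho_one σ _
  map_mul' := by
    intro g g'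
    ext d
    exact rho_mul σ g g' _

theorem card_pPow {D : Type} [AddCommGroup D] [Finite D] (hp : p.Prime)
    (h : ∀ a : D, ∃ k : ℕ, p ^ k • a = 0) : ∃ n : ℕ, Nat.card D = p ^ n := by
  have : Fact p.Prime := ⟨hp⟩
  have : IsPGroup p (Multiplicative D) := by
    rw [isPGroup_iff_pow_pow_eq_one]
    intro g
    obtain ⟨k, hk⟩ := h (Multiplicative.toAdd g)
    refine ⟨k, ?_⟩
    apply Multiplicative.toAdd.injective
    exact hk
  exact (IsPGroup.iff_card (G := Multiplicative D)).mp this

/-- Derivations with prescribed values on the basis exist. -/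
theorem IsFreeProP.der_exists (h : IsFreeProP p ι) (hp : p.Prime) {D : Type} [AddCommGroup D]
    (σ : F →* AddMonoid.End D) (hσ : IsDiscTors p σ) (β : X → D) (hβ : {x | β x ≠ 0}.Finite) :
    ∃ δ : F → D, IsDer σ δ ∧ ∀ x, δ (ι x) = β x := by
  obtain ⟨D₀, hD₀, hT, hinv⟩ := finite_submodule σ hσ hp (β '' {x | β x ≠ 0}) (hβ.image _)
  have hβD : ∀ x, β x ∈ D₀ := by
    intro x
    by_cases hx : β x = 0
    · rw [hx]; exact D₀.zero_mem
    · exact hT ⟨x, hx, rfl⟩
  let τ := autHom σ D₀ hinv
  let U : Subgroup F := τ.ker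
  have hUo : IsOpen (U : Set F) := by
    have : (U : Set F) = ⋂ d : D₀, {g | σ g (d : D) = d} := by
      ext g
      simp only [Set.mem_iInter]
      constructor
      · intro hg d
        have hg' : τ g = 1 := hg
        have e := congrArg (fun a : MulAut (Multiplicative D₀) => a (Multiplicative.ofAdd d)) hg'
        have e' := congrArg (fun a : Multiplicative D₀ => ((Multiplicative.toAdd a : D₀) : D)) e
        exact e'
      · intro hg
        change τ g = 1
        ext d
        exact hg _
    rw [this]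
    exact isOpen_iInter_of_finite (fun d => hσ.1 _)
  have hfin : Finite (F ⧸ U) := finite_quot U hUo
  obtain ⟨n, hn⟩ := h.1 U hUo inferInstance
  have hcard : Nat.card (F ⧸ U) = p ^ n := hn
  let φ : (F ⧸ U) →* MulAut (Multiplicative D₀) := QuotientGroup.lift U τ (fun g hg => hg)
  have hφ : ∀ g, φ (QuotientGroup.mk' U g) = τ g := fun g => rfl
  obtain ⟨m, hm⟩ := card_pPow (D := D₀) hp (by
    intro a
    obtain ⟨k, hk⟩ := hσ.2 (a : D)
    exact ⟨k, Subtype.ext hk⟩)
  have hE : ∃ l : ℕ, Nat.card (Multiplicative D₀ ⋊[φ] (F ⧸ U)) = p ^ l := by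
    refine ⟨m + n, ?_⟩
    rw [SemidirectProduct.card, hcard, pow_add]
    congr 1
  have hEfin : Finite (Multiplicative D₀ ⋊[φ] (F ⧸ U)) :=
    Finite.of_equiv _ (SemidirectProduct.equivProd (φ := φ)).symm
  let f : X → Multiplicative D₀ ⋊[φ] (F ⧸ U) := fun x =>
    ⟨Multiplicative.ofAdd ⟨β x, hβD x⟩, QuotientGroup.mk' U (ι x)⟩
  have hf : {x : X | f x ≠ 1}.Finite := by
    refine (hβ.union (h.2.1 (U : Set F) hUo U.one_mem)).subset ?_
    intro x hx
    by_contra hx'
    simp only [Set.mem_union, not_or] at hx'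
    obtain ⟨h1, h2⟩ := hx'
    apply hx
    have h1' : β x = 0 := by
      by_contra h3
      exact h1 h3
    have h2' : ι x ∈ U := by
      by_contra h3
      exact h2 h3
    apply SemidirectProduct.ext
    · apply Multiplicative.toAdd.injective
      apply Subtype.ext
      exact h1'
    · exact (QuotientGroup.eq_one_iff _).mpr h2'
  obtain ⟨Θ, ⟨hΘo, hΘ⟩, -⟩ := h.2.2 _ hE f hf
  -- the second component is the projection
  have hr : ∀ g, (Θ g).right = QuotientGroup.mk' U g := by
    obtain ⟨ψ, -, hψ⟩ := h.2.2 (F ⧸ U) ⟨n, hcard⟩ (fun x => QuotientGroup.mk' U (ι x)) (by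
      refine (h.2.1 (U : Set F) hUo U.one_mem).subset ?_
      intro x hx hx'
      apply hx
      exact (QuotientGroup.eq_one_iff _).mpr hx')
    have e1 := hψ (QuotientGroup.mk' U) ⟨isOpen_ker_mk U hUo, fun x => rfl⟩
    have e2 := hψ (SemidirectProduct.rightHom.comp Θ) ⟨by
      apply Subgroup.isOpen_mono (H₁ := Θ.ker) _ hΘo
      intro g hg
      rw [MonoidHom.mem_ker, MonoidHom.comp_apply, MonoidHom.mem_ker.mp hg, map_one], fun x => by
        rw [MonoidHom.comp_apply, hΘ]
        rfl⟩
    intro g
    have e3 := e2.trans e1.symm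
    exact congrArg (fun a : F →* (F ⧸ U) => a g) e3
  refine ⟨fun g => ((Multiplicative.toAdd (Θ g).left : D₀) : D), ⟨?_, ?_⟩, ?_⟩
  · exact (hom_lc Θ hΘo).comp
      (fun e : Multiplicative D₀ ⋊[φ] (F ⧸ U) => ((Multiplicative.toAdd e.left : D₀) : D))
  · intro g g'
    have e : (Θ (g * g')).left = (Θ g).left * τ g (Θ g').left := by
      rw [map_mul, SemidirectProduct.mul_left, hr, hφ]
    simp only
    rw [e]
    rfl
  · intro x
    simp only
    rw [hΘ]
    rfl

/-- Derivations lift along surjections of modules. -/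
theorem IsFreeProP.der_lift (h : IsFreeProP p ι) (hp : p.Prime) {B B' : Type} [AddCommGroup B]
    [AddCommGroup B'] (σ : F →* AddMonoid.End B) (σ' : F →* AddMonoid.End B')
    (hσ : IsDiscTors p σ) (q : B →+ B') (hq : Function.Surjective q)
    (he : ∀ g b, q (σ g b) = σ' g (q b)) (δ' : F → B') (hδ' : IsDer σ' δ') :
    ∃ δ : F → B, IsDer σ δ ∧ ∀ g, q (δ g) = δ' g := by
  classical
  obtain ⟨s, hs⟩ := hq.hasRightInverse
  let β : X → B := fun x => if δ' (ι x) = 0 then 0 else s (δ' (ι x))
  have hβ : {x | β x ≠ 0}.Finite := by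
    refine (h.2.1 {g | δ' g = 0} (hδ'.1.isOpen_fiber 0) hδ'.one).subset ?_
    intro x hx hx'
    have h0 : δ' (ι x) = 0 := hx'
    apply hx
    change (if δ' (ι x) = 0 then 0 else s (δ' (ι x))) = 0
    rw [if_pos h0]
  obtain ⟨δ, hδ, hδι⟩ := h.der_exists hp σ hσ β hβ
  refine ⟨δ, hδ, ?_⟩
  have e := h.der_unique hp (hδ.map q he) hδ' (by
    intro x
    rw [hδι]
    change q (if δ' (ι x) = 0 then 0 else s (δ' (ι x))) = δ' (ι x)
    split_ifs with h0
    · rw [map_zero, h0]
    · exact hs _)
  intro g
  exact congrFun e g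

end Free

/-! ## Locally constant functions on the `p`-adic integers -/

section PadicFunctions

variable {p : ℕ} [hp : Fact p.Prime]

theorem periodic {A : Type} [AddCommGroup A] (f : LocallyConstant ℤ_[p] A) :
    ∃ m : ℕ, ∀ z w : ℤ_[p], f (z + (p : ℤ_[p]) ^ m * w) = f z := by
  have hc : Continuous (fun q : ℤ_[p] × ℤ_[p] => q.2 + q.1) :=
    continuous_snd.add continuous_fst
  have h1 : IsLocallyConstant (fun q : ℤ_[p] × ℤ_[p] => f (q.2 + q.1) - f q.2) :=
    (f.isLocallyConstant.comp_continuous hc).sub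
      (f.isLocallyConstant.comp_continuous continuous_snd)
  have h2 := forall_open (h1.isOpen_fiber 0)
  obtain ⟨ε, hε, hball⟩ := Metric.isOpen_iff.mp h2 0 (by
    intro z
    change f (z + 0) - f z = 0
    rw [add_zero, sub_self])
  obtain ⟨m, hm⟩ := PadicInt.exists_pow_neg_lt p hε
  refine ⟨m, fun z w => ?_⟩
  have hmem : (p : ℤ_[p]) ^ m * w ∈ Metric.ball (0 : ℤ_[p]) ε := by
    rw [Metric.mem_ball, dist_zero_right]
    refine lt_of_le_of_lt ?_ hm
    rw [PadicInt.norm_le_pow_iff_mem_span_pow]
    exact Ideal.mem_span_singleton.mpr ⟨w, rfl⟩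
  have := hball hmem z
  exact sub_eq_zero.mp this

/-- The shift operator `(T f)(z) = f (z + 1)`. -/
noncomputable def shiftT (p : ℕ) [Fact p.Prime] :
    LocallyConstant ℤ_[p] (ZMod p) →ₗ[ZMod p] LocallyConstant ℤ_[p] (ZMod p) where
  toFun f := ⟨fun z => f (z + 1), f.isLocallyConstant.comp_continuous
    (continuous_id.add continuous_const)⟩
  map_add' _ _ := rfl
  map_smul' _ _ := rfl

theorem shiftT_apply (f : LocallyConstant ℤ_[p] (ZMod p)) (z : ℤ_[p]) :
    shiftT p f z = f (z + 1) := rfl

theorem shiftT_pow (k : ℕ) (f : LocallyConstant ℤ_[p] (ZMod p)) (z : ℤ_[p]) :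
    ((shiftT p) ^ k) f z = f (z + k) := by
  induction k generalizing f z with
  | zero => simp
  | succ k ih =>
    rw [pow_succ, Module.End.mul_apply, ih, shiftT_apply]
    congr 1
    push_cast
    ring

theorem shift_nilpotent (f : LocallyConstant ℤ_[p] (ZMod p)) :
    ∃ j : ℕ, ((shiftT p - 1) ^ j) f = 0 := by
  obtain ⟨m, hm⟩ := periodic f
  refine ⟨p ^ m, ?_⟩
  have hchar : CharP (Module.End (ZMod p) (LocallyConstant ℤ_[p] (ZMod p))) p := by
    have hnt : Nontrivial (LocallyConstant ℤ_[p] (ZMod p)) :=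
      ⟨⟨0, LocallyConstant.const _ 1, by
        intro h
        have := congrArg (fun g : LocallyConstant ℤ_[p] (ZMod p) => g 0) h
        exact zero_ne_one this⟩⟩
    exact charP_of_injective_algebraMap
      (algebraMap (ZMod p) (Module.End (ZMod p) (LocallyConstant ℤ_[p] (ZMod p)))).injective p
  rw [sub_pow_char_pow_of_commute p m (Commute.one_right _), one_pow, LinearMap.sub_apply]
  ext z
  change ((shiftT p) ^ p ^ m) f z - f z = 0
  rw [shiftT_pow, sub_eq_zero]
  have := hm z 1
  rw [mul_one] at this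
  push_cast
  exact this

theorem appr_add (f : LocallyConstant ℤ_[p] (ZMod p)) (m : ℕ)
    (hm : ∀ z w : ℤ_[p], f (z + (p : ℤ_[p]) ^ m * w) = f z) (n : ℕ) (hn : m ≤ n) (z : ℤ_[p]) :
    f (((PadicInt.toZModPow n z).val : ℕ) : ℤ_[p]) = f z := by
  have h1 : (PadicInt.toZModPow n) (z - (((PadicInt.toZModPow n z).val : ℕ) : ℤ_[p])) = 0 := by
    rw [map_sub, map_natCast, ZMod.natCast_val, ZMod.cast_id, sub_self]
  have h2 : z - (((PadicInt.toZModPow n z).val : ℕ) : ℤ_[p]) ∈
      RingHom.ker (PadicInt.toZModPow n : ℤ_[p] →+* ZMod (p ^ n)) := h1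
  rw [PadicInt.ker_toZModPow, Ideal.mem_span_singleton] at h2
  obtain ⟨w, hw⟩ := h2
  have h3 : z = (((PadicInt.toZModPow n z).val : ℕ) : ℤ_[p]) + (p : ℤ_[p]) ^ m *
      ((p : ℤ_[p]) ^ (n - m) * w) := by
    rw [← mul_assoc, ← pow_add, Nat.add_sub_cancel' hn, ← hw]
    ring
  conv_rhs => rw [h3]
  rw [hm]

theorem toZModPow_lc (n : ℕ) :
    IsLocallyConstant (fun z : ℤ_[p] => PadicInt.toZModPow n z) := by
  rw [IsLocallyConstant.iff_eventually_eq]
  intro z
  have hε : (0 : ℝ) < (p : ℝ) ^ (-(n : ℤ)) := zpow_pos (by exact_mod_cast hp.out.pos) _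
  filter_upwards [Metric.ball_mem_nhds z hε] with y hy
  rw [Metric.mem_ball, dist_eq_norm] at hy
  have h1 := (PadicInt.norm_le_pow_iff_mem_span_pow (y - z) n).mp hy.le
  rw [← PadicInt.ker_toZModPow, RingHom.mem_ker, map_sub, sub_eq_zero] at h1
  exact h1

theorem shift_surjective (f : LocallyConstant ℤ_[p] (ZMod p)) :
    ∃ h : LocallyConstant ℤ_[p] (ZMod p), ((shiftT p) - 1) h = f := by
  obtain ⟨m, hm⟩ := periodic f
  let n := m + 1
  let S : ℕ → ZMod p := fun k => ∑ i ∈ Finset.range k, f (i : ℤ_[p])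
  -- the sum over a full period of length p ^ (m + 1) vanishes
  have hper : ∀ i k : ℕ, f ((i + p ^ m * k : ℕ) : ℤ_[p]) = f (i : ℤ_[p]) := by
    intro i k
    push_cast
    exact hm _ _
  have hblock : ∀ k : ℕ, S (p ^ m * k) = k • S (p ^ m) := by
    intro k
    induction k with
    | zero => simp [S]
    | succ k ih =>
      have : S (p ^ m * (k + 1)) = S (p ^ m * k) + S (p ^ m) := by
        simp only [S]
        rw [mul_add, mul_one, Finset.sum_range_add]
        congr 1
        apply Finset.sum_congr rfl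
        intro i _
        rw [add_comm]
        exact hper i k
      rw [this, ih, succ_nsmul]
  have htot : S (p ^ n) = 0 := by
    have : p ^ n = p ^ m * p := pow_succ p m
    rw [this, hblock]
    simp
  let v : ℤ_[p] → ℕ := fun z => (PadicInt.toZModPow n z).val
  let h : LocallyConstant ℤ_[p] (ZMod p) :=
    ⟨fun z => S (v z), ((toZModPow_lc (p := p) n).comp ZMod.val).comp S⟩
  refine ⟨h, ?_⟩
  ext z
  change S (v (z + 1)) - S (v z) = f z
  have hfv : f ((v z : ℕ) : ℤ_[p]) = f z := appr_add f m hm n (Nat.le_succ m) z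
  have hne : NeZero (p ^ n) := ⟨pow_ne_zero _ hp.out.ne_zero⟩
  have hlt : v z < p ^ n := ZMod.val_lt _
  have hv1 : (PadicInt.toZModPow n (z + 1)) = ((v z + 1 : ℕ) : ZMod (p ^ n)) := by
    rw [map_add, map_one]
    push_cast
    rw [ZMod.natCast_val, ZMod.cast_id]
  rcases Nat.lt_or_ge (v z + 1) (p ^ n) with hcase | hcase
  · have : v (z + 1) = v z + 1 := by
      change (PadicInt.toZModPow n (z + 1)).val = _
      rw [hv1, ZMod.val_natCast, Nat.mod_eq_of_lt hcase]
    rw [this]
    simp only [S]
    rw [Finset.sum_range_succ, add_sub_cancel_left, hfv]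
  · have heq : v z + 1 = p ^ n := le_antisymm hlt hcase
    have : v (z + 1) = 0 := by
      change (PadicInt.toZModPow n (z + 1)).val = _
      rw [hv1, heq]
      simp
    rw [this]
    have e : S (v z + 1) = S (v z) + f z := by
      simp only [S]
      rw [Finset.sum_range_succ, hfv]
    rw [heq, htot] at e
    simp only [S, Finset.range_zero, Finset.sum_empty]
    rw [zero_sub]
    exact neg_eq_of_add_eq_zero_right e.symm

theorem shift_kernel (f : LocallyConstant ℤ_[p] (ZMod p)) (hf : ((shiftT p) - 1) f = 0) :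
    ∃ a : ZMod p, f = LocallyConstant.const _ a := by
  obtain ⟨m, hm⟩ := periodic f
  refine ⟨f 0, ?_⟩
  have h1 : ∀ z, f (z + 1) = f z := by
    intro z
    have := congrArg (fun g : LocallyConstant ℤ_[p] (ZMod p) => g z) hf
    change f (z + 1) - f z = 0 at this
    exact sub_eq_zero.mp this
  have h2 : ∀ k : ℕ, f (k : ℤ_[p]) = f 0 := by
    intro k
    induction k with
    | zero => simp
    | succ k ih =>
      push_cast
      rw [h1, ih]
  ext z
  rw [← appr_add f m hm m le_rfl z, h2]
  rfl

/-- An additive operator that commutes with the shift is zero or surjective. -/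
theorem operator_surjective
    (Λ : LocallyConstant ℤ_[p] (ZMod p) →+ LocallyConstant ℤ_[p] (ZMod p))
    (hΛ : ∀ c, Λ (((shiftT p) - 1) c) = ((shiftT p) - 1) (Λ c))
    (hne : ∃ c, Λ c ≠ 0) : Function.Surjective Λ := by
  obtain ⟨w₀, hw₀⟩ := hne
  have hpow : ∀ (j : ℕ) (c : LocallyConstant ℤ_[p] (ZMod p)),
      Λ ((((shiftT p) - 1) ^ j) c) = (((shiftT p) - 1) ^ j) (Λ c) := by
    intro j
    induction j with
    | zero => intro c; simp
    | succ j ih =>
      intro c
      rw [pow_succ', Module.End.mul_apply, Module.End.mul_apply, hΛ, ih]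
  classical
  have hex := shift_nilpotent (Λ w₀)
  have hj := Nat.find_spec hex
  have hj0 : Nat.find hex ≠ 0 := by
    intro h0
    rw [h0, pow_zero] at hj
    exact hw₀ hj
  obtain ⟨j, hjj⟩ : ∃ j, Nat.find hex = j + 1 := ⟨Nat.find hex - 1, by omega⟩
  rw [hjj] at hj
  have hx : ((((shiftT p) - 1) ^ j) (Λ w₀)) ≠ 0 := Nat.find_min hex (by omega)
  rw [pow_succ', Module.End.mul_apply] at hj
  obtain ⟨a, ha⟩ := shift_kernel _ hj
  have ha0 : a ≠ 0 := by
    rintro rfl
    apply hx
    rw [ha]
    rfl
  -- all constants are in the image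
  have hconst : ∀ b : ZMod p, ∃ c, Λ c = LocallyConstant.const _ b := by
    intro b
    refine ⟨(b / a).val • (((shiftT p) - 1) ^ j) w₀, ?_⟩
    rw [map_nsmul, hpow, ha]
    ext z
    change (b / a).val • a = b
    rw [nsmul_eq_mul, ZMod.natCast_val, ZMod.cast_id, div_mul_cancel₀ _ ha0]
  have key : ∀ j : ℕ, ∀ y, (((shiftT p) - 1) ^ j) y = 0 → ∃ c, Λ c = y := by
    intro j
    induction j with
    | zero =>
      intro y hy
      refine ⟨0, ?_⟩
      rw [map_zero]
      exact hy.symm
    | succ j ih =>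
      intro y hy
      rw [pow_succ, Module.End.mul_apply] at hy
      obtain ⟨w, hw⟩ := ih _ hy
      obtain ⟨w', rfl⟩ := shift_surjective w
      rw [hΛ] at hw
      have : ((shiftT p) - 1) (y - Λ w') = 0 := by
        rw [map_sub, hw, sub_self]
      obtain ⟨b, hb⟩ := shift_kernel _ this
      obtain ⟨c, hc⟩ := hconst b
      refine ⟨w' + c, ?_⟩
      rw [map_add, hc, ← hb]
      abel
  intro y
  obtain ⟨j, hj⟩ := shift_nilpotent y
  exact key j y hj

end PadicFunctions

/-! ## Evaluation at `r` for modules coinduced to `ℤ_[p]` -/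

section Eval

variable {p : ℕ} [hp : Fact p.Prime]

/-- `G` acting on `ℤ_[p]` by translations through a homomorphism `χ`. -/
noncomputable def zAct {G : Type} [Group G] [TopologicalSpace G]
    (χ : G →* Multiplicative ℤ_[p]) (hc : Continuous (fun g => Multiplicative.toAdd (χ g))) :
    SpaceAct G ℤ_[p] where
  f g z := z + Multiplicative.toAdd (χ g)
  one := by
    intro s
    simp
  mul := by
    intro g h s
    rw [map_mul, toAdd_mul]
    ring
  cont := continuous_snd.add (hc.comp continuous_fst)

variable {X F : Type} [Group F] [TopologicalSpace F] [IsTopologicalGroup F] [CompactSpace F]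
  [T2Space F] [TotallyDisconnectedSpace F] {ι : X → F}

theorem triv_discTors : IsDiscTors p (1 : F →* AddMonoid.End (ZMod p)) := by
  constructor
  · intro a
    have : {g : F | (1 : F →* AddMonoid.End (ZMod p)) g a = a} = Set.univ := by
      ext g
      simp
    rw [this]
    exact isOpen_univ
  · intro a
    refine ⟨1, ?_⟩
    simp

theorem eval_base (h : IsFreeProP p ι) (χ : F →* Multiplicative ℤ_[p])
    (hc : Continuous (fun g => Multiplicative.toAdd (χ g))) (r : F) (s : X)
    (hs : ∃ δ : F → LocallyConstant ℤ_[p] (ZMod p),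
      IsDer (coind (zAct χ hc) (1 : F →* AddMonoid.End (ZMod p))) δ ∧
        (∀ x, x ≠ s → δ (ι x) = 0) ∧ δ r ≠ 0) :
    EvalSurj (coind (zAct χ hc) (1 : F →* AddMonoid.End (ZMod p))) r := by
  classical
  set σ := coind (zAct χ hc) (1 : F →* AddMonoid.End (ZMod p)) with hσdef
  have hσ : IsDiscTors p σ := coind_discTors p _ _ triv_discTors
  have hex : ∀ c : LocallyConstant ℤ_[p] (ZMod p), ∃ δ : F → LocallyConstant ℤ_[p] (ZMod p),
      IsDer σ δ ∧ ∀ x, δ (ι x) = if x = s then c else 0 := by
    intro c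
    apply h.der_exists hp.out σ hσ
    apply (Set.finite_singleton s).subset
    intro x hx
    by_contra hxs
    apply hx
    exact if_neg hxs
  choose Δ hΔ hΔι using hex
  let Λ : LocallyConstant ℤ_[p] (ZMod p) →+ LocallyConstant ℤ_[p] (ZMod p) :=
    { toFun := fun c => Δ c r
      map_zero' := by
        have : Δ 0 = (fun _ => 0) := by
          apply h.der_unique hp.out (hΔ 0) (σ := σ)
          · refine ⟨IsLocallyConstant.const _, ?_⟩
            intro g g'
            simp
          · intro x
            rw [hΔι]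
            split_ifs <;> rfl
        rw [this]
      map_add' := by
        intro c c'
        have : Δ (c + c') = Δ c + Δ c' := by
          apply h.der_unique hp.out (hΔ _) ((hΔ c).add (hΔ c'))
          intro x
          rw [Pi.add_apply, hΔι, hΔι, hΔι]
          split_ifs <;> simp
        rw [this]
        rfl }
  have hΛ : ∀ c, Λ (((shiftT p) - 1) c) = ((shiftT p) - 1) (Λ c) := by
    intro c
    let q : LocallyConstant ℤ_[p] (ZMod p) →+ LocallyConstant ℤ_[p] (ZMod p) :=
      ((shiftT p) - 1 : Module.End (ZMod p) (LocallyConstant ℤ_[p] (ZMod p))).toAddMonoidHom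
    have hq : ∀ g d, q (σ g d) = σ g (q d) := by
      intro g d
      ext z
      change d (z + 1 + Multiplicative.toAdd (χ g⁻¹)) - d (z + Multiplicative.toAdd (χ g⁻¹)) =
        d (z + Multiplicative.toAdd (χ g⁻¹) + 1) - d (z + Multiplicative.toAdd (χ g⁻¹))
      congr 2
      ring
    have : Δ (((shiftT p) - 1) c) = fun g => q (Δ c g) := by
      apply h.der_unique hp.out (hΔ _) ((hΔ c).map q hq)
      intro x
      rw [hΔι, hΔι]
      split_ifs
      · rfl
      · rw [map_zero]
    exact congrFun this r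
  have hne : ∃ c, Λ c ≠ 0 := by
    obtain ⟨δ, hδ, hδs, hδr⟩ := hs
    refine ⟨δ (ι s), ?_⟩
    have : Δ (δ (ι s)) = δ := by
      apply h.der_unique hp.out (hΔ _) hδ
      intro x
      rw [hΔι]
      split_ifs with hx
      · rw [hx]
      · exact (hδs x hx).symm
    change Δ (δ (ι s)) r ≠ 0
    rw [this]
    exact hδr
  intro m
  obtain ⟨c, hcm⟩ := operator_surjective Λ hΛ hne m
  exact ⟨Δ c, hΔ c, hcm⟩

theorem comp_discTors {G : Type} [Group G] [TopologicalSpace G] {A : Type} [AddCommGroup A]
    (π : F →* G) (hπ : Continuous π) (ρ : G →* AddMonoid.End A) (h : IsDiscTors p ρ) :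
    IsDiscTors p (ρ.comp π) :=
  ⟨fun a => (h.1 a).preimage hπ, h.2⟩

/-- A nonzero finite `p`-primary module has a fixed element of order `p`. -/
theorem exists_fixed (h : IsFreeProP p ι) {A : Type} [AddCommGroup A]
    (σ : F →* AddMonoid.End A) (hσ : IsDiscTors p σ) (A₀ : AddSubgroup A) [Finite A₀]
    (hinv : ∀ g, ∀ a ∈ A₀, σ g a ∈ A₀) (hne : Nontrivial A₀) :
    ∃ a ∈ A₀, a ≠ 0 ∧ p • a = 0 ∧ ∀ g, σ g a = a := by
  let τ := autHom σ A₀ hinv
  let U : Subgroup F := τ.ker
  have hUo : IsOpen (U : Set F) := by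
    have : (U : Set F) = ⋂ d : A₀, {g | σ g (d : A) = d} := by
      ext g
      simp only [Set.mem_iInter]
      constructor
      · intro hg d
        have hg' : τ g = 1 := hg
        have e := congrArg (fun a : MulAut (Multiplicative A₀) => a (Multiplicative.ofAdd d)) hg'
        have e' := congrArg (fun a : Multiplicative A₀ => ((Multiplicative.toAdd a : A₀) : A)) e
        exact e'
      · intro hg
        change τ g = 1
        ext d
        exact hg _
    rw [this]
    exact isOpen_iInter_of_finite (fun d => hσ.1 _)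
  obtain ⟨n, hn⟩ := h.1 U hUo inferInstance
  have hH : IsPGroup p τ.range := by
    rw [isPGroup_iff_pow_pow_eq_one]
    rintro ⟨_, g, rfl⟩
    refine ⟨n, ?_⟩
    apply Subtype.ext
    change (τ g) ^ p ^ n = 1
    rw [← map_pow, ← hn]
    exact Subgroup.pow_index_mem U g
  obtain ⟨m, hm⟩ := card_pPow (D := A₀) hp.out (by
    intro a
    obtain ⟨k, hk⟩ := hσ.2 (a : A)
    exact ⟨k, Subtype.ext hk⟩)
  have hdvd : p ∣ Nat.card (Multiplicative A₀) := by
    change p ∣ Nat.card A₀
    rw [hm]
    have : m ≠ 0 := by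
      rintro rfl
      rw [pow_zero] at hm
      have := Finite.one_lt_card_iff_nontrivial.mpr hne
      omega
    exact dvd_pow_self p this
  have h1 : (1 : Multiplicative A₀) ∈ MulAction.fixedPoints τ.range (Multiplicative A₀) := by
    rintro ⟨_, g, rfl⟩
    exact map_one (τ g)
  obtain ⟨b, hb, hb1⟩ := hH.exists_fixed_point_of_prime_dvd_card_of_fixed_point _ hdvd h1
  let b' : A₀ := Multiplicative.toAdd b
  have hb' : b' ≠ 0 := by
    intro e
    apply hb1
    apply Multiplicative.toAdd.injective
    exact e.symm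
  have hfix : ∀ g, σ g (b' : A) = b' := by
    intro g
    have := hb ⟨τ g, g, rfl⟩
    exact congrArg (fun a : Multiplicative A₀ => ((Multiplicative.toAdd a : A₀) : A)) this
  -- pass to a multiple of order p
  classical
  have hex := hσ.2 (b' : A)
  have hk := Nat.find_spec hex
  have hk0 : Nat.find hex ≠ 0 := by
    intro h0
    rw [h0, pow_zero, one_smul] at hk
    exact hb' (Subtype.ext hk)
  obtain ⟨k, hkk⟩ : ∃ k, Nat.find hex = k + 1 := ⟨Nat.find hex - 1, by omega⟩
  rw [hkk] at hk
  refine ⟨p ^ k • (b' : A), A₀.nsmul_mem b'.2 _, Nat.find_min hex (by omega), ?_, ?_⟩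
  · rw [← mul_smul, ← pow_succ']
    exact hk
  · intro g
    rw [map_nsmul, hfix]

theorem card_map_lt {A B : Type} [AddCommGroup A] [AddCommGroup B] (A₀ : AddSubgroup A)
    [Finite A₀] (q : A →+ B) (a : A) (ha : a ∈ A₀) (ha0 : a ≠ 0) (hqa : q a = 0) :
    Finite (A₀.map q) ∧ Nat.card (A₀.map q) < Nat.card A₀ := by
  classical
  let f : A₀ → A₀.map q := fun x => ⟨q x, ⟨x, x.2, rfl⟩⟩
  have hf : Function.Surjective f := by
    rintro ⟨_, x, hx, rfl⟩
    exact ⟨⟨x, hx⟩, rfl⟩
  have hfin : Finite (A₀.map q) := Finite.of_surjective f hf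
  refine ⟨hfin, ?_⟩
  have hninj : ¬ Function.Injective f := by
    intro hinj
    have : (⟨a, ha⟩ : A₀) = 0 := by
      apply hinj
      apply Subtype.ext
      change q a = q 0
      rw [hqa, map_zero]
    exact ha0 (congrArg Subtype.val this)
  have := Fintype.ofFinite A₀
  have := Fintype.ofFinite (A₀.map q)
  rw [Nat.card_eq_fintype_card, Nat.card_eq_fintype_card]
  exact Fintype.card_lt_of_surjective_not_injective f hf hninj

/-- Push-forward of locally constant functions. -/
def lcMap (S : Type) [TopologicalSpace S] {A B : Type} [AddCommGroup A] [AddCommGroup B]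
    (q : A →+ B) : LocallyConstant S A →+ LocallyConstant S B where
  toFun f := f.map q
  map_zero' := by
    ext s
    simp
  map_add' := by
    intro f g
    ext s
    simp

theorem lcMap_apply (S : Type) [TopologicalSpace S] {A B : Type} [AddCommGroup A]
    [AddCommGroup B] (q : A →+ B) (f : LocallyConstant S A) (s : S) :
    lcMap S q f s = q (f s) := rfl

theorem lcMap_surjective (S : Type) [TopologicalSpace S] {A B : Type} [AddCommGroup A]
    [AddCommGroup B] (q : A →+ B) (hq : Function.Surjective q) :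
    Function.Surjective (lcMap S q) := by
  intro f
  obtain ⟨s, hs⟩ := hq.hasRightInverse
  refine ⟨f.map s, ?_⟩
  ext x
  exact hs _

theorem eval_devissage (h : IsFreeProP p ι) {G : Type} [Group G] [TopologicalSpace G]
    [IsTopologicalGroup G] (π : F →* G) (hπ : Continuous π) (hπs : Function.Surjective π)
    (χ : F →* Multiplicative ℤ_[p]) (hc : Continuous (fun g => Multiplicative.toAdd (χ g)))
    (χG : G →* Multiplicative ℤ_[p]) (hcG : Continuous (fun g => Multiplicative.toAdd (χG g)))
    (hχ : ∀ g, χG (π g) = χ g) (r : F)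
    (hbase : EvalSurj (coind (zAct χ hc) (1 : F →* AddMonoid.End (ZMod p))) r) (N : ℕ) :
    ∀ (A : Type) [AddCommGroup A] (ρ : G →* AddMonoid.End A), IsDiscTors p ρ →
      ∀ (m : LocallyConstant ℤ_[p] A) (A₀ : AddSubgroup A), Finite A₀ →
        (∀ g, ∀ a ∈ A₀, ρ g a ∈ A₀) → (∀ z, m z ∈ A₀) → Nat.card A₀ ≤ N →
        ∃ δ, IsDer ((coind (zAct χG hcG) ρ).comp π) δ ∧ δ r = m := by
  induction N with
  | zero =>
    intro A _ ρ hρ m A₀ hfin hinv hm hcard
    have : 0 < Nat.card A₀ := Nat.card_pos
    omega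
  | succ N ih =>
    intro A _ ρ hρ m A₀ hfin hinv hm hcard
    by_cases hnt : Nontrivial A₀
    · obtain ⟨a, ha, ha0, hpa, hfix⟩ := exists_fixed h (ρ.comp π) (comp_discTors π hπ ρ hρ) A₀
        (fun g a ha => hinv (π g) a ha) hnt
      have hfixG : ∀ g, ρ g a = a := by
        intro g
        obtain ⟨g, rfl⟩ := hπs g
        exact hfix g
      let A₁ : AddSubgroup A := AddSubgroup.zmultiples a
      have hA₁ : ∀ g, ∀ b ∈ A₁, ρ g b ∈ A₁ := by
        rintro g b ⟨k, rfl⟩
        refine ⟨k, ?_⟩
        change k • a = ρ g (k • a)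
        rw [map_zsmul, hfixG]
      let q : A →+ A ⧸ A₁ := QuotientAddGroup.mk' A₁
      have hq : Function.Surjective q := QuotientAddGroup.mk'_surjective _
      have hqa : q a = 0 := (QuotientAddGroup.eq_zero_iff a).mpr ⟨1, one_smul _ _⟩
      obtain ⟨hfin', hlt⟩ := card_map_lt A₀ q a ha ha0 hqa
      have hρ' := quotRep_discTors p ρ A₁ hA₁ hρ
      obtain ⟨δ', hδ', hδ'r⟩ := ih (A ⧸ A₁) (quotRep ρ A₁ hA₁) hρ' (lcMap _ q m) (A₀.map q)
        hfin' (by
          rintro g _ ⟨b, hb, rfl⟩
          exact ⟨ρ g b, hinv g b hb, rfl⟩) (fun z => ⟨m z, hm z, rfl⟩) (by omega)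
      -- lift δ'
      have hσ : IsDiscTors p ((coind (zAct χG hcG) ρ).comp π) :=
        comp_discTors π hπ _ (coind_discTors p _ ρ hρ)
      obtain ⟨δ₁, hδ₁, hδ₁q⟩ := h.der_lift hp.out ((coind (zAct χG hcG) ρ).comp π)
        ((coind (zAct χG hcG) (quotRep ρ A₁ hA₁)).comp π) hσ (lcMap _ q)
        (lcMap_surjective _ q hq) (fun g b => rfl) δ' hδ'
      have hval : ∀ z, (m - δ₁ r) z ∈ A₁ := by
        intro z
        have e := hδ₁q r
        rw [hδ'r] at e
        have e2 := congrArg (fun f : LocallyConstant ℤ_[p] (A ⧸ A₁) => f z) e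
        have e3 : q (δ₁ r z) = q (m z) := e2
        rw [← QuotientAddGroup.eq_zero_iff]
        change q (m z - δ₁ r z) = 0
        rw [map_sub, e3, sub_self]
      -- the embedding of ZMod p
      let ψ : ZMod p →+ A := ZMod.lift p ⟨zmultiplesHom A a, by
        change (p : ℤ) • a = 0
        rw [natCast_zsmul]
        exact hpa⟩
      have hψ : ∀ k : ℤ, ψ (k : ZMod p) = k • a := by
        intro k
        exact ZMod.lift_coe p _ k
      have hψs : ∀ b ∈ A₁, ∃ x, ψ x = b := by
        rintro b ⟨k, rfl⟩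
        exact ⟨(k : ZMod p), hψ k⟩
      classical
      let κ : A → ZMod p := fun b => if hb : ∃ x, ψ x = b then hb.choose else 0
      have hκ : ∀ b ∈ A₁, ψ (κ b) = b := by
        intro b hb
        have hb' := hψs b hb
        simp only [κ, dif_pos hb']
        exact hb'.choose_spec
      obtain ⟨δ₀, hδ₀, hδ₀r⟩ := hbase ((m - δ₁ r).map κ)
      have hpush : IsDer ((coind (zAct χG hcG) ρ).comp π) (fun g => lcMap ℤ_[p] ψ (δ₀ g)) := by
        apply hδ₀.map
        intro g d
        ext z
        change ψ (d (z + Multiplicative.toAdd (χ g⁻¹))) =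
          ρ (π g) (ψ (d (z + Multiplicative.toAdd (χG (π g)⁻¹))))
        rw [← map_inv, hχ]
        generalize d (z + Multiplicative.toAdd (χ g⁻¹)) = y
        obtain ⟨k, rfl⟩ := ZMod.intCast_surjective y
        rw [hψ, map_zsmul, hfixG]
      refine ⟨δ₁ + (fun g => lcMap ℤ_[p] ψ (δ₀ g)), hδ₁.add hpush, ?_⟩
      ext z
      change δ₁ r z + ψ (δ₀ r z) = m z
      rw [hδ₀r]
      change δ₁ r z + ψ (κ ((m - δ₁ r) z)) = m z
      rw [hκ _ (hval z)]
      change δ₁ r z + (m z - δ₁ r z) = m z
      abel
    · rw [not_nontrivial_iff_subsingleton] at hnt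
      refine ⟨fun _ => 0, ⟨IsLocallyConstant.const _, fun g g' => by simp⟩, ?_⟩
      ext z
      have : (⟨m z, hm z⟩ : A₀) = 0 := Subsingleton.elim _ _
      exact (congrArg Subtype.val this).symm

theorem eval_all (h : IsFreeProP p ι) {G : Type} [Group G] [TopologicalSpace G]
    [IsTopologicalGroup G] [CompactSpace G]
    (π : F →* G) (hπ : Continuous π) (hπs : Function.Surjective π)
    (χ : F →* Multiplicative ℤ_[p]) (hc : Continuous (fun g => Multiplicative.toAdd (χ g)))
    (χG : G →* Multiplicative ℤ_[p]) (hcG : Continuous (fun g => Multiplicative.toAdd (χG g)))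
    (hχ : ∀ g, χG (π g) = χ g) (r : F)
    (hbase : EvalSurj (coind (zAct χ hc) (1 : F →* AddMonoid.End (ZMod p))) r)
    (A : Type) [AddCommGroup A] (ρ : G →* AddMonoid.End A) (hρ : IsDiscTors p ρ) :
    EvalSurj ((coind (zAct χG hcG) ρ).comp π) r := by
  intro m
  obtain ⟨A₀, hfin, hT, hinv⟩ := finite_submodule ρ hρ hp.out (Set.range m) m.range_finite
  exact eval_devissage h π hπ hπs χ hc χG hcG hχ r hbase (Nat.card A₀) A ρ hρ m A₀ hfin hinv
    (fun z => hT ⟨z, rfl⟩) le_rfl

/-- The surjection `C(ℤ_[p], C(G, A)) → C(G, A)`, `f ↦ (x ↦ f (χ x) x)`. -/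
noncomputable def diagMap {G : Type} [Group G] [TopologicalSpace G]
    (χG : G →* Multiplicative ℤ_[p]) (hcG : Continuous (fun g => Multiplicative.toAdd (χG g)))
    (A : Type) [AddCommGroup A] :
    LocallyConstant ℤ_[p] (LocallyConstant G A) →+ LocallyConstant G A where
  toFun f := ⟨fun x => f (Multiplicative.toAdd (χG x)) x, by
    rw [IsLocallyConstant.iff_eventually_eq]
    intro x
    have h1 := (f.isLocallyConstant.comp_continuous hcG).eventually_eq x
    have h2 := (f (Multiplicative.toAdd (χG x))).isLocallyConstant.eventually_eq x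
    filter_upwards [h1, h2] with y hy1 hy2
    have : f (Multiplicative.toAdd (χG y)) = f (Multiplicative.toAdd (χG x)) := hy1
    rw [this]
    exact hy2⟩
  map_zero' := rfl
  map_add' _ _ := rfl

theorem eval_shift (h : IsFreeProP p ι) {G : Type} [Group G] [TopologicalSpace G]
    [IsTopologicalGroup G] [CompactSpace G]
    (π : F →* G) (hπ : Continuous π) (hπs : Function.Surjective π)
    (χ : F →* Multiplicative ℤ_[p]) (hc : Continuous (fun g => Multiplicative.toAdd (χ g)))
    (χG : G →* Multiplicative ℤ_[p]) (hcG : Continuous (fun g => Multiplicative.toAdd (χG g)))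
    (hχ : ∀ g, χG (π g) = χ g) (r : F)
    (hbase : EvalSurj (coind (zAct χ hc) (1 : F →* AddMonoid.End (ZMod p))) r)
    (A : Type) [AddCommGroup A] (ρ : G →* AddMonoid.End A) (hρ : IsDiscTors p ρ) :
    EvalSurj ((shiftRep ρ).comp π) r := by
  have h1 := eval_all h π hπ hπs χ hc χG hcG hχ r hbase (LocallyConstant G A)
    (coind (leftAct G) ρ) (coind_discTors p _ ρ hρ)
  have h2 : EvalSurj ((coind (leftAct G) ρ).comp π) r := by
    apply h1.map (diagMap χG hcG A)
    · intro f
      exact ⟨LocallyConstant.const _ f, rfl⟩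
    · intro g f
      ext x
      change ρ (π g) (f (Multiplicative.toAdd (χG x) + Multiplicative.toAdd (χG (π g)⁻¹))
        ((π g)⁻¹ * x)) = ρ (π g) (f (Multiplicative.toAdd (χG ((π g)⁻¹ * x))) ((π g)⁻¹ * x))
      have e : Multiplicative.toAdd (χG ((π g)⁻¹ * x)) =
          Multiplicative.toAdd (χG x) + Multiplicative.toAdd (χG (π g)⁻¹) := by
        rw [map_mul χG, toAdd_mul, add_comm]
      rw [e]
  exact h2.map (QuotientAddGroup.mk' (constSub G A)) (QuotientAddGroup.mk'_surjective _)
    (fun g f => rfl)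

end Eval

/-! ## The main theorem -/

/-- The cohomological dimension of a pro-`p` group `G`: the least `n` (or `∞`) such that
`Hᵐ(G, A) = 0` for all `m > n` and all discrete `p`-primary torsion `G`-modules `A`. -/
noncomputable def cd (p : ℕ) (G : Type) [Group G] [TopologicalSpace G] : ℕ∞ :=
  sInf {n : ℕ∞ | ∀ m : ℕ, n < m → ∀ (A : Type) [AddCommGroup A] (ρ : G →* AddMonoid.End A),
    IsDiscTors p ρ → HVanishes ρ m}

section Main

variable {p : ℕ} [hp : Fact p.Prime]
variable {X F : Type} [Group F] [TopologicalSpace F] [IsTopologicalGroup F] [CompactSpace F]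
  [T2Space F] [TotallyDisconnectedSpace F] {ι : X → F}

theorem cd_le_two (h : IsFreeProP p ι) (χ : F →* Multiplicative ℤ_[p])
    (hc : Continuous (fun g => Multiplicative.toAdd (χ g))) (r : F) (hr : χ r = 1)
    (hbase : EvalSurj (coind (zAct χ hc) (1 : F →* AddMonoid.End (ZMod p))) r) :
    cd p (F ⧸ clNormal r) ≤ 2 := by
  have hker : clNormal r ≤ χ.ker := by
    apply clNormal_le r χ.ker _ hr
    have : (χ.ker : Set F) = {g | Multiplicative.toAdd (χ g) = 0} := by
      ext g
      rfl
    rw [this]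
    exact isClosed_eq hc continuous_const
  let π := QuotientGroup.mk' (clNormal r)
  have hπ : Continuous π := QuotientGroup.continuous_mk
  have hπs : Function.Surjective π := QuotientGroup.mk'_surjective _
  let χG : (F ⧸ clNormal r) →* Multiplicative ℤ_[p] := QuotientGroup.lift (clNormal r) χ hker
  have hcG : Continuous (fun g => Multiplicative.toAdd (χG g)) := by
    have hquot : Topology.IsQuotientMap (QuotientGroup.mk : F → F ⧸ clNormal r) :=
      QuotientGroup.isQuotientMap_mk _
    rw [hquot.continuous_iff]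
    exact hc
  have hχ : ∀ g, χG (π g) = χ g := fun g => rfl
  have h3 : ∀ (A : Type) [AddCommGroup A] (ρ : (F ⧸ clNormal r) →* AddMonoid.End A),
      IsDiscTors p ρ → HVanishes ρ 3 := by
    intro A _ ρ hρ
    apply shift p ρ hρ 1
    have hρ' : IsDiscTors p (shiftRep ρ) := quotRep_discTors p _ _ _ (coind_discTors p _ ρ hρ)
    apply H2_of_eval r (shiftRep ρ) hρ'.1
    · exact eval_shift h π hπ hπs χ hc χG hcG hχ r hbase A ρ hρ
    · intro δ'' hδ''
      exact h.der_lift hp.out _ _
        (comp_discTors π hπ _ (coind_discTors p _ _ hρ'))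
        (QuotientAddGroup.mk' (constSub (F ⧸ clNormal r) _))
        (QuotientAddGroup.mk'_surjective _) (fun g b => rfl) δ'' hδ''
  have hall := shift_iter p h3
  apply sInf_le
  intro m hm A _ ρ hρ
  apply hall m _ A ρ hρ
  have : (2 : ℕ∞) < m := hm
  have h2 : 2 < m := by exact_mod_cast this
  omega

/-- The coordinate homomorphism of a basis element. -/
theorem exists_coord (h : IsFreeProP p ι) (s : X) :
    ∃ χ : F →* Multiplicative ℤ_[p], Continuous (fun g => Multiplicative.toAdd (χ g)) ∧
      χ (ι s) = Multiplicative.ofAdd 1 ∧ ∀ x, x ≠ s → χ (ι x) = 1 := by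
  classical
  have hne : ∀ n, NeZero (p ^ n) := fun n => ⟨pow_ne_zero _ hp.out.ne_zero⟩
  have hcard : ∀ n : ℕ, ∃ k : ℕ, Nat.card (Multiplicative (ZMod (p ^ n))) = p ^ k := by
    intro n
    refine ⟨n, ?_⟩
    change Nat.card (ZMod (p ^ n)) = p ^ n
    exact Nat.card_zmod _
  have hfin : ∀ n : ℕ, Finite (Multiplicative (ZMod (p ^ n))) := by
    intro n
    have := hne n
    exact (inferInstance : Finite (ZMod (p ^ n)))
  let f : ∀ n : ℕ, X → Multiplicative (ZMod (p ^ n)) := fun n x =>
    if x = s then Multiplicative.ofAdd 1 else 1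
  have hf : ∀ n, {x : X | f n x ≠ 1}.Finite := by
    intro n
    apply (Set.finite_singleton s).subset
    intro x hx
    by_contra hxs
    apply hx
    exact if_neg hxs
  have hex : ∀ n, ∃! φ : F →* Multiplicative (ZMod (p ^ n)),
      IsOpen (φ.ker : Set F) ∧ ∀ x : X, φ (ι x) = f n x := by
    intro n
    have := hfin n
    exact h.2.2 _ (hcard n) (f n) (hf n)
  choose φ hφ hφu using hex
  -- compatibility
  have hcomp : ∀ n g, ZMod.castHom (pow_dvd_pow p (Nat.le_succ n)) (ZMod (p ^ n))
      (Multiplicative.toAdd (φ (n + 1) g)) = Multiplicative.toAdd (φ n g) := by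
    intro n g
    let c : Multiplicative (ZMod (p ^ (n + 1))) →* Multiplicative (ZMod (p ^ n)) :=
      AddMonoidHom.toMultiplicative
        (ZMod.castHom (pow_dvd_pow p (Nat.le_succ n)) (ZMod (p ^ n))).toAddMonoidHom
    have e : c.comp (φ (n + 1)) = φ n := by
      apply hφu n
      constructor
      · apply Subgroup.isOpen_mono (H₁ := (φ (n + 1)).ker) _ (hφ (n + 1)).1
        intro g hg
        rw [MonoidHom.mem_ker, MonoidHom.comp_apply, MonoidHom.mem_ker.mp hg, map_one]
      · intro x
        rw [MonoidHom.comp_apply, (hφ (n + 1)).2]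
        change c (if x = s then Multiplicative.ofAdd 1 else 1) =
          if x = s then Multiplicative.ofAdd 1 else 1
        split_ifs
        · apply Multiplicative.toAdd.injective
          change (ZMod.castHom (pow_dvd_pow p (Nat.le_succ n)) (ZMod (p ^ n))) 1 = 1
          exact map_one _
        · exact map_one c
    exact congrArg (fun k : F →* Multiplicative (ZMod (p ^ n)) => Multiplicative.toAdd (k g)) e
  let a : F → ℕ → ℤ := fun g n => ((Multiplicative.toAdd (φ n g)).val : ℤ)
  have ha : ∀ g i, (p : ℤ) ^ i ∣ a g (i + 1) - a g i := by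
    intro g i
    have e := hcomp i g
    have : ((a g i : ℤ) : ZMod (p ^ i)) = ((a g (i + 1) : ℤ) : ZMod (p ^ i)) := by
      simp only [a]
      have n1 := hne i
      have n2 := hne (i + 1)
      rw [Int.cast_natCast, Int.cast_natCast, ZMod.natCast_val, ZMod.natCast_val, ZMod.cast_id,
        ← e]
      rfl
    have := (ZMod.intCast_eq_intCast_iff_dvd_sub _ _ _).mp this
    exact_mod_cast this
  let χ₀ : F → ℤ_[p] := fun g => PadicInt.ofIntSeq _
    (PadicInt.isCauSeq_padicNorm_of_pow_dvd_sub (a g) p (ha g))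
  have hχ₀ : ∀ g n, PadicInt.toZModPow n (χ₀ g) = Multiplicative.toAdd (φ n g) := by
    intro g n
    have := PadicInt.toZModPow_ofIntSeq_of_pow_dvd_sub (a g) p (ha g) n
    have n1 := hne n
    rw [this]
    simp only [a]
    rw [Int.cast_natCast, ZMod.natCast_val, ZMod.cast_id]
  let χ : F →* Multiplicative ℤ_[p] :=
    { toFun := fun g => Multiplicative.ofAdd (χ₀ g)
      map_one' := by
        apply Multiplicative.toAdd.injective
        change χ₀ 1 = 0
        apply PadicInt.ext_of_toZModPow.mp
        intro n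
        rw [hχ₀, map_one, map_zero]
        rfl
      map_mul' := by
        intro g g'
        apply Multiplicative.toAdd.injective
        change χ₀ (g * g') = χ₀ g + χ₀ g'
        apply PadicInt.ext_of_toZModPow.mp
        intro n
        rw [hχ₀, map_mul, map_add, hχ₀, hχ₀]
        rfl }
  refine ⟨χ, ?_, ?_, ?_⟩
  · change Continuous χ₀
    rw [Metric.continuous_iff']
    intro g ε hε
    obtain ⟨n, hn⟩ := PadicInt.exists_pow_neg_lt p hε
    have h1 := (hom_lc (φ n) (hφ n).1).eventually_eq g
    filter_upwards [h1] with y hy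
    rw [dist_eq_norm]
    refine lt_of_le_of_lt ?_ hn
    rw [PadicInt.norm_le_pow_iff_mem_span_pow, ← PadicInt.ker_toZModPow, RingHom.mem_ker,
      map_sub, hχ₀, hχ₀, hy, sub_self]
  · apply Multiplicative.toAdd.injective
    change χ₀ (ι s) = 1
    apply PadicInt.ext_of_toZModPow.mp
    intro n
    rw [hχ₀, (hφ n).2, map_one]
    change Multiplicative.toAdd (if s = s then Multiplicative.ofAdd 1 else 1) = 1
    rw [if_pos rfl]
    rfl
  · intro x hx
    apply Multiplicative.toAdd.injective
    change χ₀ (ι x) = 0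
    apply PadicInt.ext_of_toZModPow.mp
    intro n
    rw [hχ₀, (hφ n).2, map_zero]
    change Multiplicative.toAdd (if x = s then Multiplicative.ofAdd 1 else 1) = 0
    rw [if_neg hx]
    rfl

/-- For each `g` there is a `ℤ_[p]`-valued character that kills `g` and takes the value `1` at a
basis element. -/
theorem exists_char [Nontrivial X] (h : IsFreeProP p ι) (g : F) :
    ∃ (s t : X) (χ : F →* Multiplicative ℤ_[p]), s ≠ t ∧
      Continuous (fun g => Multiplicative.toAdd (χ g)) ∧ χ g = 1 ∧
      χ (ι t) = Multiplicative.ofAdd 1 := by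
  obtain ⟨s, t, hst⟩ := exists_pair_ne X
  -- the case where the s-coordinate divides the t-coordinate
  have key : ∀ s t : X, s ≠ t → ∀ (χs χt : F →* Multiplicative ℤ_[p]),
      Continuous (fun g => Multiplicative.toAdd (χs g)) →
      Continuous (fun g => Multiplicative.toAdd (χt g)) →
      (∀ x, x ≠ s → χs (ι x) = 1) → χt (ι t) = Multiplicative.ofAdd 1 →
      Multiplicative.toAdd (χs g) ∣ Multiplicative.toAdd (χt g) →
      ∃ (s t : X) (χ : F →* Multiplicative ℤ_[p]), s ≠ t ∧
        Continuous (fun g => Multiplicative.toAdd (χ g)) ∧ χ g = 1 ∧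
        χ (ι t) = Multiplicative.ofAdd 1 := by
    rintro s t hst χs χt hcs hct hs0 ht1 ⟨c, hc⟩
    let χ : F →* Multiplicative ℤ_[p] :=
      { toFun := fun g => Multiplicative.ofAdd
          (Multiplicative.toAdd (χt g) - Multiplicative.toAdd (χs g) * c)
        map_one' := by
          apply Multiplicative.toAdd.injective
          simp
        map_mul' := by
          intro a b
          apply Multiplicative.toAdd.injective
          simp only [map_mul, toAdd_mul, toAdd_ofAdd]
          ring }
    refine ⟨s, t, χ, hst, ?_, ?_, ?_⟩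
    · exact hct.sub (hcs.mul continuous_const)
    · apply Multiplicative.toAdd.injective
      change Multiplicative.toAdd (χt g) - Multiplicative.toAdd (χs g) * c = 0
      rw [hc, sub_self]
    · apply Multiplicative.toAdd.injective
      change Multiplicative.toAdd (χt (ι t)) - Multiplicative.toAdd (χs (ι t)) * c = 1
      rw [ht1, hs0 t hst.symm]
      simp
  obtain ⟨χs, hcs, hs1, hs0⟩ := exists_coord h s
  obtain ⟨χt, hct, ht1, ht0⟩ := exists_coord h t
  rcases ValuationRing.dvd_total (Multiplicative.toAdd (χs g)) (Multiplicative.toAdd (χt g)) with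
    hd | hd
  · exact key s t hst χs χt hcs hct hs0 ht1 hd
  · exact key t s hst.symm χt χs hct hcs ht0 hs1 hd

theorem exists_relator [Nontrivial X] (h : IsFreeProP p ι) (g : F) (N : Subgroup F) [hN : N.Normal]
    (hNo : IsOpen (N : Set F)) : ∃ r : F, g⁻¹ * r ∈ N ∧ cd p (F ⧸ clNormal r) ≤ 2 := by
  classical
  obtain ⟨s, t, χ, hst, hc, hg, ht⟩ := exists_char h g
  set σ := coind (zAct χ hc) (1 : F →* AddMonoid.End (ZMod p)) with hσdef
  have hσ : IsDiscTors p σ := coind_discTors p _ _ triv_discTors
  have hex : ∀ c : LocallyConstant ℤ_[p] (ZMod p), ∃ δ : F → LocallyConstant ℤ_[p] (ZMod p),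
      IsDer σ δ ∧ ∀ x, δ (ι x) = if x = s then c else 0 := by
    intro c
    apply h.der_exists hp.out σ hσ
    apply (Set.finite_singleton s).subset
    intro x hx
    by_contra hxs
    apply hx
    exact if_neg hxs
  by_cases hcase : ∃ δ : F → LocallyConstant ℤ_[p] (ZMod p),
      IsDer σ δ ∧ (∀ x, x ≠ s → δ (ι x) = 0) ∧ δ g ≠ 0
  · refine ⟨g, ?_, cd_le_two h χ hc g hg (eval_base h χ hc g s hcase)⟩
    rw [inv_mul_cancel]
    exact N.one_mem
  · obtain ⟨m, hm⟩ := h.1 N hNo hN
    -- the commutator
    set x := ι s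
    set y := ι t
    let q := p ^ m
    have hyq : y ^ q ∈ N := by
      have := Subgroup.pow_index_mem N y
      rwa [hm] at this
    let n := x * y ^ q * x⁻¹ * (y ^ q)⁻¹
    have hn : n ∈ N := N.mul_mem (hN.conj_mem _ hyq x) (N.inv_mem hyq)
    have hχn : χ n = 1 := by
      simp only [n, map_mul, map_inv]
      rw [mul_comm (χ x) (χ (y ^ q))]
      group
    -- the test function
    let c : LocallyConstant ℤ_[p] (ZMod p) :=
      ⟨fun z => if PadicInt.toZModPow (m + 1) z = 0 then 1 else 0,
        (toZModPow_lc (p := p) (m + 1)).comp (fun w => if w = 0 then 1 else 0)⟩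
    obtain ⟨δ, hδ, hδι⟩ := hex c
    have hδx : δ x = c := by
      have := hδι s
      rwa [if_pos rfl] at this
    have hδy : δ y = 0 := by
      have := hδι t
      rwa [if_neg hst.symm] at this
    have hδyk : ∀ k : ℕ, δ (y ^ k) = 0 := by
      intro k
      induction k with
      | zero => rw [pow_zero]; exact hδ.one
      | succ k ih => rw [pow_succ, hδ.2, ih, hδy, map_zero, add_zero]
    have hδn : δ n = c - σ (x * y ^ q * x⁻¹) c := by
      have e1 : δ (x * y ^ q * x⁻¹) = c - σ (x * y ^ q * x⁻¹) c := by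
        rw [hδ.2, hδ.2, hδyk, map_zero, add_zero, hδx, hδ.inv, hδx, map_neg, ← rho_mul,
          sub_eq_add_neg]
      change δ (x * y ^ q * x⁻¹ * (y ^ q)⁻¹) = _
      rw [hδ.2, e1, hδ.inv, hδyk, map_zero, neg_zero, map_zero, add_zero]
    have hδn0 : δ n ≠ 0 := by
      intro h0
      have e := congrArg (fun f : LocallyConstant ℤ_[p] (ZMod p) => f 0) h0
      rw [hδn] at e
      have e1 : (σ (x * y ^ q * x⁻¹) c) 0 =
          c (0 + Multiplicative.toAdd (χ (x * y ^ q * x⁻¹)⁻¹)) := rfl
      have e2 : Multiplicative.toAdd (χ (x * y ^ q * x⁻¹)⁻¹) = -((q : ℕ) : ℤ_[p]) := by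
        have : χ (x * y ^ q * x⁻¹) = Multiplicative.ofAdd ((q : ℕ) : ℤ_[p]) := by
          rw [map_mul, map_mul, mul_comm (χ x), map_inv, mul_inv_cancel_right, map_pow, ht]
          apply Multiplicative.toAdd.injective
          simp
        rw [map_inv, this]
        rfl
      change c 0 - (σ (x * y ^ q * x⁻¹) c) 0 = 0 at e
      rw [e1, e2, zero_add] at e
      have c0 : c 0 = 1 := by
        change (if PadicInt.toZModPow (m + 1) (0 : ℤ_[p]) = 0 then (1 : ZMod p) else 0) = 1
        rw [map_zero, if_pos rfl]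
      have c1 : c (-((q : ℕ) : ℤ_[p])) = 0 := by
        change (if PadicInt.toZModPow (m + 1) (-((q : ℕ) : ℤ_[p])) = 0 then (1 : ZMod p) else 0) = 0
        rw [if_neg]
        rw [map_neg, neg_eq_zero, map_natCast, ZMod.natCast_eq_zero_iff]
        intro hdvd
        have h1 := Nat.le_of_dvd (pow_pos hp.out.pos m) hdvd
        have h2 : p ^ m < p ^ (m + 1) := Nat.pow_lt_pow_right hp.out.one_lt (Nat.lt_succ_self m)
        exact absurd h1 (not_le.mpr h2)
      rw [c0, c1, sub_zero] at e
      exact one_ne_zero e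
    have hδg : δ g = 0 := by
      by_contra hne
      apply hcase
      refine ⟨δ, hδ, ?_, hne⟩
      intro z hz
      rw [hδι, if_neg hz]
    have hδr : δ (g * n) ≠ 0 := by
      rw [hδ.2, hδg, zero_add]
      have : σ g (δ n) = δ n := by
        ext z
        change δ n (z + Multiplicative.toAdd (χ g⁻¹)) = δ n z
        rw [map_inv, hg, inv_one, toAdd_one, add_zero]
      rw [this]
      exact hδn0
    refine ⟨g * n, ?_, ?_⟩
    · rw [inv_mul_cancel_left]
      exact hn
    · apply cd_le_two h χ hc (g * n)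
      · rw [map_mul, hg, hχn, mul_one]
      · apply eval_base h χ hc (g * n) s
        refine ⟨δ, hδ, ?_, hδr⟩
        intro z hz
        rw [hδι, if_neg hz]

end Main

/-- For every prime `p` and every free pro-`p` group `F` of rank at least two, the set of all
`r ∈ F` with `cd (F/(r)) ≤ 2` is dense in `F`. -/
theorem result : ∀ (p : ℕ), p.Prime → ∀ (X F : Type) [Nontrivial X] [Group F]
    [TopologicalSpace F] [IsTopologicalGroup F] [CompactSpace F] [T2Space F]
    [TotallyDisconnectedSpace F] (ι : X → F), IsFreeProP p ι →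
    Dense {r : F | cd p (F ⧸ clNormal r) ≤ 2} := by
  intro p hp X F _ _ _ _ _ _ _ ι h
  have : Fact p.Prime := ⟨hp⟩
  rw [dense_iff_inter_open]
  rintro V hV ⟨g, hg⟩
  have hV' : IsOpen ((fun x => g * x) ⁻¹' V) := hV.preimage (continuous_const.mul continuous_id)
  obtain ⟨U, hU⟩ := ProfiniteGrp.exist_openNormalSubgroup_sub_open_nhds_of_one hV' (by
    change g * 1 ∈ V
    rwa [mul_one])
  have hUn : U.toSubgroup.Normal := U.isNormal'
  obtain ⟨r, hr, hcd⟩ := exists_relator h g U.toSubgroup U.isOpen'
  refine ⟨r, ?_, hcd⟩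
  have := hU hr
  change g * (g⁻¹ * r) ∈ V at this
  rwa [mul_inv_cancel_left] at this

end Pool.Agent.Results.MP_de7343_al.Dense
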